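import Pool.Agent.Helper919_DQ.QSet

set_option autoImplicit false
set_option linter.unusedSectionVars false

/-! # Bookkeeping -/

namespace Pool.Agent.Helper919.DQ

open Cardinal

theorem mk_arrow_le {A X : Type} {κ : Cardinal.{0}} (hκ : ℵ₀ ≤ κ) (hA : #A ≤ κ)
    (hX : #X ≤ 2 ^ κ) : #(A → X) ≤ 2 ^ κ := by
  rw [← power_def]
  calc #X ^ #A ≤ (2 ^ κ) ^ #A := power_le_power_right hX
    _ = 2 ^ (κ * #A) := (power_mul).symm
    _ ≤ 2 ^ κ := power_le_power_left two_ne_zero ((mul_le_mul' le_rfl hA).trans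
        (mul_eq_self hκ).le)

theorem mk_atom_le {J L : Type} {lam : Cardinal.{0}} (hlam : ℵ_ 1 ≤ lam) (hJ : #J ≤ lam)
    (hL : #L ≤ lam) : #(Atom J L) ≤ lam := by
  have h0 : ℵ₀ ≤ lam := (aleph0_le_aleph 1).trans hlam
  have hW : #W ≤ lam := by rw [mk_W]; exact hlam
  have hprod : ∀ {A B : Type}, #A ≤ lam → #B ≤ lam → #(A × B) ≤ lam := by
    intro A B hA hB
    rw [mk_prod, lift_id, lift_id]
    exact (mul_le_mul' hA hB).trans (mul_eq_self h0).le
  have hsum : ∀ {A B : Type}, #A ≤ lam → #B ≤ lam → #(A ⊕ B) ≤ lam := by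
    intro A B hA hB
    rw [mk_sum, lift_id, lift_id]
    exact (add_le_add hA hB).trans (add_eq_self h0).le
  have hc : ∀ {A : Type} [Countable A], #A ≤ lam := fun {A} _ => (mk_le_aleph0).trans h0
  let f : Atom J L → (W × (ℕ × Bool)) ⊕ ((W × (W × ℕ)) ⊕ (((J × L) × (W × ℕ)) ⊕
      ((J × L) × (List Bool × ℕ)))) := fun a => match a with
    | .x α n b => Sum.inl (α, (n, b))
    | .c α β n => Sum.inr (Sum.inl (α, (β, n)))
    | .e j β α k => Sum.inr (Sum.inr (Sum.inl ((j, β), (α, k))))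
    | .b j β t k => Sum.inr (Sum.inr (Sum.inr ((j, β), (t, k))))
  have hf : Function.Injective f := by
    intro a a' h
    cases a <;> cases a' <;> simp_all [f]
  refine (mk_le_of_injective hf).trans ?_
  exact hsum (hprod hW hc) (hsum (hprod hW (hprod hW hc)) (hsum
    (hprod (hprod hJ hL) (hprod hW hc)) (hprod (hprod hJ hL) hc)))

theorem mk_rep_le {J L : Type} {lam : Cardinal.{0}} (hlam : ℵ_ 1 ≤ lam) (hJ : #J ≤ lam)
    (hL : #L ≤ lam) : #(Rep J L) ≤ lam := by
  have h0 : ℵ₀ ≤ lam := (aleph0_le_aleph 1).trans hlam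
  have hne : Nonempty W := by
    rw [← mk_ne_zero_iff, mk_W]
    exact (aleph_pos 1).ne'
  obtain ⟨w⟩ := hne
  have hinf : Infinite (Atom J L) :=
    Infinite.of_injective (fun n : ℕ => Atom.x w n true) fun n m h => (Atom.x.inj h).2.1
  show #(Finset (Atom J L)) ≤ lam
  rw [mk_finset_of_infinite]
  exact mk_atom_le hlam hJ hL

/-- countable sets are enumerated -/
theorem exists_enum {X : Type} {S : Set X} (hS : S.Countable) :
    ∃ h : ℕ → Option X, ∀ x, x ∈ S ↔ ∃ n, h n = some x := by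
  by_cases hne : S.Nonempty
  · obtain ⟨f, rfl⟩ := hS.exists_eq_range hne
    refine ⟨fun n => some (f n), fun x => ?_⟩
    simp
  · rw [Set.not_nonempty_iff_eq_empty] at hne
    subst hne
    exact ⟨fun _ => none, by simp⟩

/-- the bookkeeping function -/
theorem exists_book (J : Type) (hJ : ℵ_ 1 ≤ #J) :
    ∃ g : Set J → W → Set (Rep J (Set J)),
      ∀ N : W → Set (Rep J (Set J)), (∀ α, (N α).Countable) → ∃ β, g β = N := by
  have hJ0 : ℵ₀ ≤ #J := (aleph0_le_aleph 1).trans hJ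
  have hlam : ℵ_ 1 ≤ 2 ^ #J := hJ.trans (cantor _).le
  have h0 : ℵ₀ ≤ 2 ^ #J := (aleph0_le_aleph 1).trans hlam
  have hR : #(Rep J (Set J)) ≤ 2 ^ #J := mk_rep_le hlam (cantor _).le (by rw [mk_set])
  have hO : #(Option (Rep J (Set J))) ≤ 2 ^ #J := by
    rw [mk_option]
    exact (add_le_add hR (one_le_aleph0.trans h0)).trans (add_eq_self h0).le
  have hK : #W ≤ #J := by rw [mk_W]; exact hJ
  have hNat : #ℕ ≤ #J := by rw [mk_nat]; exact hJ0
  have hNm : #(W → ℕ → Option (Rep J (Set J))) ≤ #(Set J) := by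
    rw [mk_set]
    exact mk_arrow_le hJ0 hK (mk_arrow_le hJ0 hNat hO)
  obtain ⟨F⟩ := hNm
  let f := Function.invFun F
  have hf : ∀ N, f (F N) = N := Function.leftInverse_invFun F.injective
  refine ⟨fun β α => {r | ∃ n, f β α n = some r}, fun N hN => ?_⟩
  choose h hh using fun α => exists_enum (hN α)
  refine ⟨F h, ?_⟩
  funext α
  ext r
  rw [hh α r]
  simp only [hf, Set.mem_ofPred_eq]

theorem main : ∃ (P : Type) (_ : Preorder P), Nonempty P ∧ CCC P ∧
    ∃ x : W → ℕ → Set P, ∀ p : P, p ∈ Distinct x ∧ p ∈ QSet x ∧ p ∈ DeltaSet x ∧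
      p ∈ fnot (DeltaSq x) := by
  let J : Type := (ℵ_ 2).ord.ToType
  have hJ : #J = ℵ_ 2 := by
    show #((ℵ_ 2).ord.ToType) = _
    rw [mk_toType, card_ord]
  have h12 : Order.succ (ℵ_ 1) = ℵ_ 2 := by
    rw [Cardinal.succ_aleph]
    congr 1
    exact one_add_one_eq_two
  have hreg : (ℵ_ 2).IsRegular := by
    rw [← h12]
    exact isRegular_succ (aleph0_le_aleph 1)
  have hcof : ∀ S : Set J, #S ≤ ℵ_ 1 → ∃ b, ∀ s ∈ S, s < b := by
    intro S hS
    by_contra hcon
    push Not at hcon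
    have h1 : IsCofinal S := fun b => by
      obtain ⟨s, hs, hb⟩ := hcon b
      exact ⟨s, hs, hb⟩
    have h2 := Order.cof_le h1
    rw [Ordinal.cof_toType, hreg.cof_ord, ← h12] at h2
    exact absurd (h2.trans hS) (not_le.2 (Order.lt_succ _))
  obtain ⟨g, hg⟩ := exists_book J (by rw [hJ]; exact aleph_le_aleph.2 (by norm_num))
  exact ⟨Cd g, inferInstance, inferInstance, ccc, xn g, fun p =>
    ⟨distinct_xn p, qSet_xn hcof hg p, deltaSet_xn hcof hg p, not_deltaSq p⟩⟩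

end Pool.Agent.Helper919.DQ
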