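import Pool.Agent.Helper919_DQ.Poset

set_option autoImplicit false
set_option linter.unusedSectionVars false

/-! # The generic objects and density arguments -/

namespace Pool.Agent.Helper919.DQ

open Cardinal

variable {J L : Type} {g : L → W → Set (Rep J L)} [LinearOrder J] [WellFoundedLT J]

variable (g) in
/-- the generic points -/
def xn (α : W) (n : ℕ) : Set (Cd g) := {p | Atom.x α n true ∈ p.1}

theorem down_xn (α : W) (n : ℕ) : Down (xn g α n) := fun _ hp _ hq => hq hp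

/-- all values given by the string are in the condition -/
def Has (p : Rep J L) (α : W) (t : List Bool) : Prop :=
  ∀ (n : ℕ) (c : Bool), t[n]? = some c → Atom.x α n c ∈ p

theorem Has.mono {p q : Rep J L} {α : W} {t : List Bool} (h : Has p α t) (hq : p ⊆ q) :
    Has q α t := fun n c hn => hq (h n c hn)

theorem meets_of_x {p : Cd g} {α : W} {n : ℕ} (h : Atom.x α n true ∈ p.1) :
    p ∈ meets (xn g α n) := meets_of_mem h

theorem not_meets_of_x {p : Cd g} {α : W} {n : ℕ} (h : Atom.x α n false ∈ p.1) :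
    p ∈ fnot (meets (xn g α n)) := by
  intro q hq hm
  obtain ⟨r, hr, h1⟩ := exists_of_meets (down_xn α n) hm
  exact r.2.1.1 α n h1 (hr (hq h))

theorem Cyl_of_has {p : Cd g} {α : W} {t : List Bool} (h : Has p.1 α t) :
    p ∈ Cyl (xn g α) t := by
  intro n
  exact ⟨fun h1 => meets_of_x (h n _ h1), fun h1 => not_meets_of_x (h n _ h1)⟩

/-- adding atoms on points and colours -/
theorem ext_xc [DecidableEq (Atom J L)] (p : Cd g) (S : Finset (Atom J L))
    (hS : ∀ a ∈ S, (∃ α n b, a = Atom.x α n b) ∨ ∃ α β n, a = Atom.c α β n)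
    (hb : Base (p.1 ∪ S)) : Ok g (p.1 ∪ S) := by
  have he : ∀ j β α k, Atom.e j β α k ∈ p.1 ∪ S → Atom.e j β α k ∈ p.1 := by
    intro j β α k h
    rcases Finset.mem_union.1 h with h | h
    · exact h
    · rcases hS _ h with ⟨_, _, _, h'⟩ | ⟨_, _, _, h'⟩ <;> exact absurd h' (by simp)
  have hbb : ∀ j β t k, Atom.b j β t k ∈ p.1 ∪ S → Atom.b j β t k ∈ p.1 := by
    intro j β α k h
    rcases Finset.mem_union.1 h with h | h
    · exact h
    · rcases hS _ h with ⟨_, _, _, h'⟩ | ⟨_, _, _, h'⟩ <;> exact absurd h' (by simp)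
  refine ⟨hb, fun i => ⟨fun β α k t h1 h2 => ?_, fun β α k h1 q hq hpq => ?_⟩⟩
  · obtain ⟨n, c, h3, h4⟩ := (p.2.2 i).1 β α k t (he _ _ _ _ h1) (hbb _ _ _ _ h2)
    exact ⟨n, c, h3, Finset.mem_union_left _ h4⟩
  · exact (p.2.2 i).2 β α k (he _ _ _ _ h1) q hq fun a ha hai =>
      hpq a (Finset.mem_union_left _ ha) hai

theorem add_x (p : Cd g) (α : W) (n : ℕ) (b : Bool) (h : ∀ b', Atom.x α n b' ∉ p.1) :
    ∃ q ≤ p, Atom.x α n b ∈ q.1 ∧ ∀ a ∈ q.1, a ∈ p.1 ∨ a = Atom.x α n b := by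
  classical
  refine ⟨⟨p.1 ∪ {Atom.x α n b}, ext_xc p _ (fun a ha => Or.inl ⟨α, n, b, by simpa using ha⟩) ?_⟩,
    Finset.subset_union_left, by simp, fun a ha => by
      rcases Finset.mem_union.1 ha with h | h
      · exact Or.inl h
      · exact Or.inr (Finset.mem_singleton.1 h)⟩
  refine Base.of (fun α' n' b1 b2 h1 h2 => ?_) (fun α' β' n' m' h1 h2 => ?_)
  · simp only [Finset.mem_union, Finset.mem_singleton, Atom.x.injEq] at h1 h2
    rcases h1 with h1 | ⟨rfl, rfl, rfl⟩ <;> rcases h2 with h2 | ⟨h3, h4, h5⟩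
    · exact p.2.1.ne h1 h2
    · subst h3; subst h4; exact absurd h1 (h _)
    · exact absurd h2 (h _)
    · exact h5.symm
  · simp only [Finset.mem_union, Finset.mem_singleton, reduceCtorEq, or_false] at h1 h2
    exact p.2.1.2 _ _ _ _ h1 h2

theorem decide_x (p : Cd g) (α : W) (n : ℕ) : ∃ q ≤ p, ∃ b, Atom.x α n b ∈ q.1 := by
  by_cases h : ∀ b', Atom.x α n b' ∉ p.1
  · obtain ⟨q, hq, h1, _⟩ := add_x p α n true h
    exact ⟨q, hq, true, h1⟩
  · push Not at h
    obtain ⟨b, hb⟩ := h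
    exact ⟨p, le_rfl, b, hb⟩

theorem decide_upto (p : Cd g) (α : W) (N : ℕ) :
    ∃ q ≤ p, ∀ n < N, ∃ b, Atom.x α n b ∈ q.1 := by
  induction N with
  | zero => exact ⟨p, le_rfl, fun n hn => absurd hn (Nat.not_lt_zero n)⟩
  | succ N ih =>
    obtain ⟨q, hq, h⟩ := ih
    obtain ⟨r, hr, b, hb⟩ := decide_x q α N
    refine ⟨r, hr.trans hq, fun n hn => ?_⟩
    rcases Nat.lt_succ_iff_lt_or_eq.1 hn with h1 | rfl
    · obtain ⟨b', hb'⟩ := h n h1
      exact ⟨b', hr hb'⟩
    · exact ⟨b, hb⟩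

theorem has_of_Cyl {p : Cd g} {α : W} {t : List Bool} (h : p ∈ Cyl (xn g α) t) :
    ∃ q ≤ p, Has q.1 α t := by
  obtain ⟨q, hq, h1⟩ := decide_upto p α t.length
  refine ⟨q, hq, fun n c hn => ?_⟩
  obtain ⟨hlt, _⟩ := List.getElem?_eq_some_iff.1 hn
  obtain ⟨b, hb⟩ := h1 n hlt
  have h2 := down_Cyl _ _ p h q hq n
  cases c with
  | true =>
    cases b with
    | true => exact hb
    | false => exact absurd (h2.1 hn) (not_meets_of_x hb q le_rfl)
  | false =>
    cases b with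
    | true => exact absurd (meets_of_x hb) (h2.2 hn q le_rfl)
    | false => exact hb

theorem add_c (p : Cd g) (α β : W) (n : ℕ) (h : ∀ m, Atom.c α β m ∉ p.1) :
    ∃ q ≤ p, Atom.c α β n ∈ q.1 := by
  classical
  refine ⟨⟨p.1 ∪ {Atom.c α β n}, ext_xc p _ (fun a ha => Or.inr ⟨α, β, n, by simpa using ha⟩) ?_⟩,
    Finset.subset_union_left, by simp⟩
  refine Base.of (fun α' n' b1 b2 h1 h2 => ?_) (fun α' β' n' m' h1 h2 => ?_)
  · simp only [Finset.mem_union, Finset.mem_singleton, reduceCtorEq, or_false] at h1 h2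
    exact p.2.1.ne h1 h2
  · simp only [Finset.mem_union, Finset.mem_singleton, Atom.c.injEq] at h1 h2
    rcases h1 with h1 | ⟨rfl, rfl, rfl⟩ <;> rcases h2 with h2 | ⟨h3, h4, h5⟩
    · exact p.2.1.2 _ _ _ _ h1 h2
    · subst h3; subst h4; exact absurd h1 (h _)
    · exact absurd h2 (h _)
    · exact h5.symm

theorem decide_c (p : Cd g) (α β : W) : ∃ q ≤ p, ∃ n, Atom.c α β n ∈ q.1 := by
  by_cases h : ∀ m, Atom.c α β m ∉ p.1
  · obtain ⟨q, hq, h1⟩ := add_c p α β 0 h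
    exact ⟨q, hq, 0, h1⟩
  · push Not at h
    obtain ⟨m, hm⟩ := h
    exact ⟨p, le_rfl, m, hm⟩

/-- the numbers in a condition are bounded -/
theorem exists_bound (p : Rep J L) : ∃ N : ℕ, (∀ α n b, Atom.x α n b ∈ p → n < N) ∧
    (∀ j β t k, Atom.b j β t k ∈ p → k < N) := by
  classical
  let f : Atom J L → ℕ := fun a => match a with
    | .x _ n _ => n + 1
    | .c _ _ _ => 0
    | .e _ _ _ _ => 0
    | .b _ _ _ k => k + 1
  refine ⟨p.sup f, fun α n b h => ?_, fun j β t k h => ?_⟩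
  · exact Nat.lt_of_succ_le (Finset.le_sup (f := f) h)
  · exact Nat.lt_of_succ_le (Finset.le_sup (f := f) h)

/-- adding a promise -/
theorem add_e (p : Cd g) (j : J) (β : L) (α : W)
    (h : ∀ q ∈ Vd g j, (∀ a ∈ p.1, a.Bel j → a ∈ q) →
      ∃ r ∈ Vd g j, q ⊆ r ∧ ∃ s ∈ g β α, s ⊆ r) :
    ∃ q ≤ p, ∃ k, Atom.e j β α k ∈ q.1 := by
  classical
  obtain ⟨N, _, hN⟩ := exists_bound p.1
  have hok : Ok g (insert (Atom.e j β α N) p.1) := by
    refine ⟨Base.of (fun α' n' b1 b2 h1 h2 => ?_) (fun α' β' n' m' h1 h2 => ?_),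
      fun i => ⟨fun β' α' k t h1 h2 => ?_, fun β' α' k h1 q hq hpq => ?_⟩⟩
    · simp only [Finset.mem_insert, reduceCtorEq, false_or] at h1 h2
      exact p.2.1.ne h1 h2
    · simp only [Finset.mem_insert, reduceCtorEq, false_or] at h1 h2
      exact p.2.1.2 _ _ _ _ h1 h2
    · simp only [Finset.mem_insert, reduceCtorEq, false_or] at h1 h2
      rcases h1 with h1 | h1
      · obtain ⟨rfl, rfl, rfl, rfl⟩ := Atom.e.inj h1
        exact absurd (hN _ _ _ _ h2) (lt_irrefl _)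
      · obtain ⟨n, c, h3, h4⟩ := (p.2.2 i).1 β' α' k t h1 h2
        exact ⟨n, c, h3, Finset.mem_insert_of_mem h4⟩
    · rcases Finset.mem_insert.1 h1 with h1 | h1
      · obtain ⟨rfl, rfl, rfl, rfl⟩ := Atom.e.inj h1
        exact h q hq fun a ha hai => hpq a (Finset.mem_insert_of_mem ha) hai
      · exact (p.2.2 i).2 β' α' k h1 q hq fun a ha hai => hpq a (Finset.mem_insert_of_mem ha) hai
  exact ⟨⟨_, hok⟩, Finset.subset_insert _ _, N, Finset.mem_insert_self _ _⟩

/-- separating a point from a closed set -/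
theorem add_b (p : Cd g) (j : J) (β : L) (α : W) (k : ℕ) (h : Atom.e j β α k ∉ p.1) :
    ∃ q ≤ p, ∃ t, Atom.b j β t k ∈ q.1 ∧ Has q.1 α t := by
  classical
  obtain ⟨N, hN, _⟩ := exists_bound p.1
  let s : ℕ → Bool := fun n => decide (Atom.x α n true ∈ p.1)
  have hs : ∀ n b, Atom.x α n b ∈ p.1 → b = s n := by
    intro n b hb
    cases b with
    | true => simp [s, hb]
    | false =>
      have : Atom.x α n true ∉ p.1 := fun h' => p.2.1.1 α n h' hb
      simp [s, this]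
  let t : List Bool := (List.range (N + 1)).map s
  have ht : ∀ n c, t[n]? = some c → n < N + 1 ∧ c = s n := by
    intro n c hn
    simp only [t, List.getElem?_map, Option.map_eq_some_iff] at hn
    obtain ⟨m, hm, rfl⟩ := hn
    obtain ⟨hlt, hm'⟩ := List.getElem?_eq_some_iff.1 hm
    simp only [List.length_range] at hlt
    simp only [List.getElem_range] at hm'
    subst hm'
    exact ⟨hlt, rfl⟩
  have htN : t[N]? = some (s N) := by
    simp only [t, List.getElem?_map, Option.map_eq_some_iff]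
    exact ⟨N, by simp, rfl⟩
  let E : Finset W := p.1.biUnion fun a => match a with
    | .e _ _ ζ _ => {ζ}
    | _ => ∅
  let S1 : Finset (Atom J L) := (Finset.range (N + 1)).image fun n => Atom.x α n (s n)
  let S2 : Finset (Atom J L) := (E.filter fun ζ => Atom.e j β ζ k ∈ p.1).image
    fun ζ => Atom.x ζ N (!(s N))
  have hE : ∀ ζ, Atom.e j β ζ k ∈ p.1 → Atom.x ζ N (!(s N)) ∈ S2 := by
    intro ζ hζ
    simp only [S2, Finset.mem_image, Finset.mem_filter]
    refine ⟨ζ, ⟨?_, hζ⟩, rfl⟩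
    simp only [E, Finset.mem_biUnion]
    exact ⟨_, hζ, by simp⟩
  have hS1 : ∀ a ∈ S1, ∃ n < N + 1, a = Atom.x α n (s n) := by
    intro a ha
    simp only [S1, Finset.mem_image, Finset.mem_range] at ha
    obtain ⟨n, h1, h2⟩ := ha
    exact ⟨n, h1, h2.symm⟩
  have hS2 : ∀ a ∈ S2, ∃ ζ, Atom.e j β ζ k ∈ p.1 ∧ a = Atom.x ζ N (!(s N)) := by
    intro a ha
    simp only [S2, Finset.mem_image, Finset.mem_filter] at ha
    obtain ⟨ζ, h1, h2⟩ := ha
    exact ⟨ζ, h1.2, h2.symm⟩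
  have hb1 : Base (p.1 ∪ (S1 ∪ S2)) := by
    have key : ∀ α' n b, Atom.x α' n b ∈ p.1 ∪ (S1 ∪ S2) → Atom.x α' n b ∈ p.1 ∨
        (α' = α ∧ b = s n) ∨ (Atom.e j β α' k ∈ p.1 ∧ n = N ∧ b = !(s N)) := by
      intro α' n b hm
      rcases Finset.mem_union.1 hm with hm | hm
      · exact Or.inl hm
      rcases Finset.mem_union.1 hm with hm | hm
      · obtain ⟨n', _, h2⟩ := hS1 _ hm
        obtain ⟨rfl, rfl, rfl⟩ := Atom.x.inj h2
        exact Or.inr (Or.inl ⟨rfl, rfl⟩)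
      · obtain ⟨ζ, h1, h2⟩ := hS2 _ hm
        obtain ⟨rfl, rfl, rfl⟩ := Atom.x.inj h2
        exact Or.inr (Or.inr ⟨h1, rfl, rfl⟩)
    refine Base.of (fun α' n' b1 b2 h1 h2 => ?_) (fun α' β' n' m' h1 h2 => ?_)
    · have k1 := key _ _ _ h1
      have k2 := key _ _ _ h2
      clear h1 h2
      rcases k1 with h1 | ⟨h1, h1'⟩ | ⟨h1, h1', h1''⟩ <;>
        rcases k2 with h2 | ⟨h2, h2'⟩ | ⟨h2, h2', h2''⟩
      · exact p.2.1.ne h1 h2
      · subst h2; rw [h2', hs _ _ h1]
      · subst h2'; exact absurd (hN _ _ _ h1) (lt_irrefl _)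
      · subst h1; rw [h1', hs _ _ h2]
      · rw [h1', h2']
      · subst h1; exact absurd h2 h
      · subst h1'; exact absurd (hN _ _ _ h2) (lt_irrefl _)
      · subst h2; exact absurd h1 h
      · rw [h1'', h2'']
    · have key2 : ∀ n, Atom.c α' β' n ∈ p.1 ∪ (S1 ∪ S2) → Atom.c α' β' n ∈ p.1 := by
        intro n hm
        rcases Finset.mem_union.1 hm with hm | hm
        · exact hm
        rcases Finset.mem_union.1 hm with hm | hm
        · obtain ⟨_, _, h2⟩ := hS1 _ hm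
          exact absurd h2 (by simp)
        · obtain ⟨_, _, h2⟩ := hS2 _ hm
          exact absurd h2 (by simp)
      exact p.2.1.2 _ _ _ _ (key2 _ h1) (key2 _ h2)
  have hok1 : Ok g (p.1 ∪ (S1 ∪ S2)) := by
    refine ext_xc p _ (fun a ha => Or.inl ?_) hb1
    rcases Finset.mem_union.1 ha with hm | hm
    · obtain ⟨n, _, h2⟩ := hS1 _ hm
      exact ⟨_, _, _, h2⟩
    · obtain ⟨n, _, h2⟩ := hS2 _ hm
      exact ⟨_, _, _, h2⟩
  set q1 : Rep J L := p.1 ∪ (S1 ∪ S2) with hq1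
  have he1 : ∀ ζ, Atom.e j β ζ k ∈ q1 → Atom.e j β ζ k ∈ p.1 := by
    intro ζ hm
    rcases Finset.mem_union.1 hm with hm | hm
    · exact hm
    rcases Finset.mem_union.1 hm with hm | hm
    · obtain ⟨_, _, h2⟩ := hS1 _ hm
      exact absurd h2 (by simp)
    · obtain ⟨_, _, h2⟩ := hS2 _ hm
      exact absurd h2 (by simp)
  have hok : Ok g (insert (Atom.b j β t k) q1) := by
    refine ⟨Base.of (fun α' n' b1 b2 h1 h2 => ?_) (fun α' β' n' m' h1 h2 => ?_),
      fun i => ⟨fun β' α' k' t' h1 h2 => ?_, fun β' α' k' h1 q hq hpq => ?_⟩⟩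
    · simp only [Finset.mem_insert, reduceCtorEq, false_or] at h1 h2
      exact hok1.1.ne h1 h2
    · simp only [Finset.mem_insert, reduceCtorEq, false_or] at h1 h2
      exact hok1.1.2 _ _ _ _ h1 h2
    · simp only [Finset.mem_insert, reduceCtorEq, false_or] at h1 h2
      rcases h2 with h2 | h2
      · obtain ⟨rfl, rfl, rfl, rfl⟩ := Atom.b.inj h2
        refine ⟨N, s N, htN, Finset.mem_insert_of_mem ?_⟩
        exact Finset.mem_union_right _ (Finset.mem_union_right _ (hE _ (he1 _ h1)))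
      · obtain ⟨n, c, h3, h4⟩ := (hok1.2 i).1 β' α' k' t' h1 h2
        exact ⟨n, c, h3, Finset.mem_insert_of_mem h4⟩
    · simp only [Finset.mem_insert, reduceCtorEq, false_or] at h1
      exact (hok1.2 i).2 β' α' k' h1 q hq fun a ha hai => hpq a (Finset.mem_insert_of_mem ha) hai
  refine ⟨⟨_, hok⟩, fun a ha => Finset.mem_insert_of_mem (Finset.mem_union_left _ ha), t,
    Finset.mem_insert_self _ _, fun n c hn => ?_⟩
  obtain ⟨h1, h2⟩ := ht n c hn
  refine Finset.mem_insert_of_mem (Finset.mem_union_right _ (Finset.mem_union_left _ ?_))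
  simp only [S1, Finset.mem_image, Finset.mem_range]
  exact ⟨n, h1, by rw [h2]⟩

/-- the generic points are distinct -/
theorem distinct_xn (p : Cd g) : p ∈ Distinct (xn g) := by
  intro α β hαβ q _ hq
  obtain ⟨N, hN, _⟩ := exists_bound q.1
  obtain ⟨r, hr, h1, h1'⟩ := add_x q α N true fun b' hb' => absurd (hN _ _ _ hb') (lt_irrefl _)
  obtain ⟨r2, hr2, h3, _⟩ := add_x r β N false fun b' hb' => by
    rcases h1' _ hb' with h4 | h4
    · exact absurd (hN _ _ _ h4) (lt_irrefl _)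
    · exact hαβ (Atom.x.inj h4).1.symm
  obtain ⟨r3, hr3, h5⟩ := mem_fimp.1 (hq N).1 r2 (hr2.trans hr) (meets_of_x (hr2 h1))
  exact not_meets_of_x h3 r3 hr3 h5

end Pool.Agent.Helper919.DQ
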