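import Pool.Agent.Helper919_DQ.Lang

set_option autoImplicit false

/-! # General facts on the forcing relation -/

namespace Pool.Agent.Helper919.DQ

open Cardinal

universe u v

set_option linter.unusedSectionVars false
set_option linter.unusedVariables false

section

variable {P : Type u} [Preorder P]

theorem mem_fex {ι : Sort v} {φ : ι → Set P} {p : P} :
    p ∈ fex φ ↔ ∀ q ≤ p, ∃ r ≤ q, ∃ i, r ∈ φ i := by
  simp only [fex, fnot, fall, Set.mem_ofPred_eq, not_forall, not_not]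
  constructor
  · intro h q hq
    obtain ⟨i, r, hr, h'⟩ := h q hq
    exact ⟨r, hr, i, h'⟩
  · intro h q hq
    obtain ⟨r, hr, i, h'⟩ := h q hq
    exact ⟨i, r, hr, h'⟩

theorem mem_fimp {φ ψ : Set P} {p : P} :
    p ∈ fimp φ ψ ↔ ∀ q ≤ p, q ∈ φ → ∃ r ≤ q, r ∈ ψ := by
  simp only [fimp, fnot, fand, Set.mem_ofPred_eq, not_and, not_forall, not_not]
  constructor
  · intro h q hq h'
    obtain ⟨r, hr, h''⟩ := h q hq h'
    exact ⟨r, hr, h''⟩
  · intro h q hq h'
    obtain ⟨r, hr, h''⟩ := h q hq h'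
    exact ⟨r, hr, h''⟩

theorem mem_fnot {φ : Set P} {p : P} : p ∈ fnot φ ↔ ∀ q ≤ p, q ∉ φ := Iff.rfl

theorem mem_fand {φ ψ : Set P} {p : P} : p ∈ fand φ ψ ↔ p ∈ φ ∧ p ∈ ψ := Iff.rfl

theorem mem_fall {ι : Sort v} {φ : ι → Set P} {p : P} : p ∈ fall φ ↔ ∀ i, p ∈ φ i := Iff.rfl

/-- The statement `φ` is preserved by passing to stronger conditions. -/
def Down (φ : Set P) : Prop := ∀ p ∈ φ, ∀ q ≤ p, q ∈ φ

/-- The statement `φ` holds at `p` if it holds densely below `p`. -/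
def Reg (φ : Set P) : Prop := ∀ p, (∀ q ≤ p, ∃ r ≤ q, r ∈ φ) → p ∈ φ

theorem down_fnot (φ : Set P) : Down (fnot φ) :=
  fun _ hp _ hq r hr => hp r (hr.trans hq)

theorem down_fand {φ ψ : Set P} (h : Down φ) (h' : Down ψ) : Down (fand φ ψ) :=
  fun _ hp _ hq => ⟨h _ hp.1 _ hq, h' _ hp.2 _ hq⟩

theorem down_fall {ι : Sort v} {φ : ι → Set P} (h : ∀ i, Down (φ i)) : Down (fall φ) :=
  fun _ hp _ hq i => h i _ (hp i) _ hq

theorem down_fex {ι : Sort v} (φ : ι → Set P) : Down (fex φ) := down_fnot _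

theorem down_fimp (φ ψ : Set P) : Down (fimp φ ψ) := down_fnot _

theorem down_meets (N : Set P) : Down (meets N) :=
  fun _ hp _ hq r hr => hp r (hr.trans hq)

theorem reg_fnot {φ : Set P} (h : Down φ) : Reg (fnot φ) := by
  intro p hp q hq hφ
  obtain ⟨r, hr, h'⟩ := hp q hq
  exact h' r le_rfl (h q hφ r hr)

theorem reg_fand {φ ψ : Set P} (h : Reg φ) (h' : Reg ψ) : Reg (fand φ ψ) := by
  intro p hp
  refine ⟨h p fun q hq => ?_, h' p fun q hq => ?_⟩
  · obtain ⟨r, hr, h1, _⟩ := hp q hq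
    exact ⟨r, hr, h1⟩
  · obtain ⟨r, hr, _, h1⟩ := hp q hq
    exact ⟨r, hr, h1⟩

theorem reg_fall {ι : Sort v} {φ : ι → Set P} (h : ∀ i, Reg (φ i)) : Reg (fall φ) := by
  intro p hp i
  refine h i p fun q hq => ?_
  obtain ⟨r, hr, h1⟩ := hp q hq
  exact ⟨r, hr, h1 i⟩

theorem reg_fex {ι : Sort v} {φ : ι → Set P} (h : ∀ i, Down (φ i)) : Reg (fex φ) := by
  intro p hp
  rw [mem_fex]
  intro q hq
  obtain ⟨r, hr, h1⟩ := hp q hq
  obtain ⟨s, hs, i, h2⟩ := mem_fex.1 h1 r le_rfl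
  exact ⟨s, hs.trans hr, i, h2⟩

theorem reg_meets (N : Set P) : Reg (meets N) := by
  intro p hp q hq
  obtain ⟨r, hr, h1⟩ := hp q hq
  obtain ⟨s, hs, h2⟩ := h1 r le_rfl
  exact ⟨s, hs.trans hr, h2⟩

theorem fimp_iff {φ ψ : Set P} (h : Down φ) (h' : Reg ψ) {p : P} :
    p ∈ fimp φ ψ ↔ ∀ q ≤ p, q ∈ φ → q ∈ ψ := by
  rw [mem_fimp]
  constructor
  · intro H q hq hφ
    refine h' q fun r hr => ?_
    exact H r (hr.trans hq) (h q hφ r hr)
  · intro H q hq hφ
    exact ⟨q, le_rfl, H q hq hφ⟩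

theorem mem_fex_of_mem {ι : Sort v} {φ : ι → Set P} {p : P} (i : ι) (hd : Down (φ i))
    (h : p ∈ φ i) : p ∈ fex φ :=
  mem_fex.2 fun q hq => ⟨q, le_rfl, i, hd _ h _ hq⟩

theorem meets_of_mem {N : Set P} {p : P} (h : p ∈ N) : p ∈ meets N :=
  fun q hq => ⟨q, le_rfl, p, h, hq⟩

theorem meets_of_le {N : Set P} {p s : P} (hs : s ∈ N) (h : p ≤ s) : p ∈ meets N :=
  fun q hq => ⟨q, le_rfl, s, hs, hq.trans h⟩

/-- for a set closed downwards -/
theorem exists_of_meets {N : Set P} (hN : Down N) {p : P} (h : p ∈ meets N) :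
    ∃ q ≤ p, q ∈ N := by
  obtain ⟨r, hr, s, hs, hle⟩ := h p le_rfl
  exact ⟨r, hr, hN s hs r hle⟩

theorem meets_eq {N : Set P} (hN : Down N) (hR : Reg N) : meets N = N := by
  ext p
  constructor
  · intro h
    refine hR p fun q hq => ?_
    obtain ⟨r, hr, s, hs, hle⟩ := h q hq
    exact ⟨r, hr, hN s hs r hle⟩
  · exact meets_of_mem

theorem fnot_fnot {φ : Set P} (h : Down φ) (h' : Reg φ) : fnot (fnot φ) = φ := by
  ext p
  constructor
  · intro hp
    refine h' p fun q hq => ?_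
    have := hp q hq
    simp only [fnot, Set.mem_ofPred_eq, not_forall, not_not] at this
    obtain ⟨r, hr, h1⟩ := this
    exact ⟨r, hr, h1⟩
  · intro hp q hq hn
    exact hn q le_rfl (h p hp q hq)

theorem down_Cyl (x : ℕ → Set P) (t : List Bool) : Down (Cyl x t) :=
  down_fall fun _ => down_fand (down_fall fun _ => down_meets _) (down_fall fun _ => down_fnot _)

theorem reg_Cyl (x : ℕ → Set P) (t : List Bool) : Reg (Cyl x t) :=
  reg_fall fun _ => reg_fand (reg_fall fun _ => reg_meets _)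
    (reg_fall fun _ => reg_fnot (down_meets _))

theorem down_InO (x : ℕ → Set P) (U : List Bool → Set P) : Down (InO x U) := down_fex _

theorem reg_InO (x : ℕ → Set P) (U : List Bool → Set P) : Reg (InO x U) :=
  reg_fex fun _ => down_fand (down_meets _) (down_Cyl _ _)

theorem down_InO2 (x y : ℕ → Set P) (U : List Bool → List Bool → Set P) : Down (InO2 x y U) :=
  down_fex _

theorem reg_InO2 (x y : ℕ → Set P) (U : List Bool → List Bool → Set P) : Reg (InO2 x y U) :=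
  reg_fex fun _ => down_fex _

/-- shorter strings give larger sets -/
theorem Cyl_prefix {x : ℕ → Set P} {t t' : List Bool} (h : t' <+: t) {p : P}
    (hp : p ∈ Cyl x t) : p ∈ Cyl x t' := by
  have key : ∀ (n : ℕ) (c : Bool), t'[n]? = some c → t[n]? = some c := by
    intro n c hn
    obtain ⟨s, rfl⟩ := h
    obtain ⟨hlt, _⟩ := List.getElem?_eq_some_iff.1 hn
    rw [List.getElem?_append_left hlt]
    exact hn
  intro n
  exact ⟨fun h1 => (hp n).1 (key n _ h1), fun h1 => (hp n).2 (key n _ h1)⟩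

theorem Cyl_nil {x : ℕ → Set P} {p : P} : p ∈ Cyl x [] := by
  intro n
  exact ⟨fun h => by simp at h, fun h => by simp at h⟩

end

end Pool.Agent.Helper919.DQ
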