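import Mathlib

set_option autoImplicit false

/-!
# The forcing relation, and sets of points of the Cantor space in a forcing extension

A sentence of the forcing language of a preordered set `P` of conditions is represented by the
set of the conditions which force it. Negation, conjunction and universal quantification are the
primitive connectives, with their usual forcing clauses; the other connectives are defined from
them classically. A name for a subset of a ground model set `X` is a map sending `x : X` to the
set of the conditions attached to `x`.
-/

namespace Pool.Agent.Helper919.DQ

open Cardinal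

universe u v

section language

variable {P : Type u} [Preorder P]

/-- `p` forces `not φ` iff no `q ≤ p` forces `φ`. -/
def fnot (φ : Set P) : Set P := {p | ∀ q ≤ p, q ∉ φ}

/-- `p` forces `φ and ψ` iff it forces both. -/
def fand (φ ψ : Set P) : Set P := {p | p ∈ φ ∧ p ∈ ψ}

/-- `p` forces `for all i, φ i` iff it forces every `φ i`. -/
def fall {ι : Sort v} (φ : ι → Set P) : Set P := {p | ∀ i, p ∈ φ i}

/-- `φ implies ψ` is `not (φ and not ψ)`. -/
def fimp (φ ψ : Set P) : Set P := fnot (fand φ (fnot ψ))

/-- `there is i with φ i` is `not for all i, not φ i`. -/
def fex {ι : Sort v} (φ : ι → Set P) : Set P := fnot (fall fun i => fnot (φ i))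

/-- `p` forces that the generic filter meets the set `N` of conditions:
the set of `r` lying below some member of `N` is dense below `p`. -/
def meets (N : Set P) : Set P := {p | ∀ q ≤ p, ∃ r ≤ q, ∃ s ∈ N, r ≤ s}

end language

/-! ### Statements about sets of points of the Cantor space

A point of the Cantor space `2^ω` of the extension is given by a name `x : ℕ → Set P` for the set
of the natural numbers at which it takes the value `true`. An open subset of `2^ω` is the union of
the basic clopen sets `[t]` for `t` in a set of finite binary strings, and this set of strings has
a name `U : List Bool → Set P`; an open subset of `2^ω × 2^ω` is a union of sets `[t] × [t']`. -/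

/-- The index set: the set of countable ordinals, which has cardinality `ℵ₁`. -/
abbrev W : Type := (ℵ_ 1).ord.ToType

section statements

variable {P : Type u} [Preorder P]

/-- The point named by `x` lies in the basic clopen set `[t]`: it extends the string `t`. -/
def Cyl (x : ℕ → Set P) (t : List Bool) : Set P :=
  fall fun n : ℕ =>
    fand (fall fun _ : t[n]? = some true => meets (x n))
      (fall fun _ : t[n]? = some false => fnot (meets (x n)))

/-- The point named by `x` lies in the open set named by `U`. -/
def InO (x : ℕ → Set P) (U : List Bool → Set P) : Set P :=
  fex fun t : List Bool => fand (meets (U t)) (Cyl x t)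

/-- The pair of the points named by `x` and `y` lies in the open subset of `2^ω × 2^ω` named
by `U`. -/
def InO2 (x y : ℕ → Set P) (U : List Bool → List Bool → Set P) : Set P :=
  fex fun t : List Bool => fex fun t' : List Bool =>
    fand (meets (U t t')) (fand (Cyl x t) (Cyl y t'))

/-- The points `x α`, for `α : W`, are pairwise distinct. -/
def Distinct (x : W → ℕ → Set P) : Set P :=
  fall fun α => fall fun β => fall fun _ : α ≠ β =>
    fnot (fall fun n : ℕ => fand (fimp (meets (x α n)) (meets (x β n)))
      (fimp (meets (x β n)) (meets (x α n))))

/-- The set `X = {x α : α ∈ W}` is a `Q`-set: for every subset of `X`, given by the set `A` of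
the indices of its points, there are open sets `U k` such that it is the intersection of `X` with
all the `U k`. -/
def QSet (x : W → ℕ → Set P) : Set P :=
  fall fun A : W → Set P => fex fun U : ℕ → List Bool → Set P =>
    fall fun α => fand (fimp (meets (A α)) (fall fun k => InO (x α) (U k)))
      (fimp (fall fun k => InO (x α) (U k)) (meets (A α)))

/-- The set `X = {x α : α ∈ W}` is a `Δ`-set: for every decreasing sequence of subsets `D n` of
`X` with empty intersection there are open sets `V n` with `D n ⊆ V n` such that the sequence
of the sets `V n ∩ X` is decreasing and has empty intersection. -/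
def DeltaSet (x : W → ℕ → Set P) : Set P :=
  fall fun D : ℕ → W → Set P =>
    fimp
      (fand (fall fun n => fall fun α => fimp (meets (D (n + 1) α)) (meets (D n α)))
        (fall fun α => fnot (fall fun n => meets (D n α))))
      (fex fun V : ℕ → List Bool → Set P =>
        fand (fall fun n => fall fun α => fimp (meets (D n α)) (InO (x α) (V n)))
          (fand (fall fun n => fall fun α => fimp (InO (x α) (V (n + 1))) (InO (x α) (V n)))
            (fall fun α => fnot (fall fun n => InO (x α) (V n)))))

/-- The square `X × X` of the set `X = {x α : α ∈ W}` is a `Δ`-set, as a subspace of
`2^ω × 2^ω`. -/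
def DeltaSq (x : W → ℕ → Set P) : Set P :=
  fall fun D : ℕ → W → W → Set P =>
    fimp
      (fand (fall fun n => fall fun α => fall fun β =>
          fimp (meets (D (n + 1) α β)) (meets (D n α β)))
        (fall fun α => fall fun β => fnot (fall fun n => meets (D n α β))))
      (fex fun V : ℕ → List Bool → List Bool → Set P =>
        fand (fall fun n => fall fun α => fall fun β =>
            fimp (meets (D n α β)) (InO2 (x α) (x β) (V n)))
          (fand (fall fun n => fall fun α => fall fun β =>
              fimp (InO2 (x α) (x β) (V (n + 1))) (InO2 (x α) (x β) (V n)))
            (fall fun α => fall fun β => fnot (fall fun n => InO2 (x α) (x β) (V n)))))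

end statements

/-- The countable chain condition: pairwise incompatible conditions form a countable set. -/
def CCC (P : Type u) [Preorder P] : Prop :=
  ∀ A : Set P, (∀ a ∈ A, ∀ b ∈ A, (∃ s, s ≤ a ∧ s ≤ b) → a = b) → A.Countable

end Pool.Agent.Helper919.DQ
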