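import Pool.Agent.Helper919_DQ.Facts

set_option autoImplicit false
set_option linter.unusedSectionVars false

/-! # The poset -/

namespace Pool.Agent.Helper919.DQ

open Cardinal

/-- atoms: `x α n b` says that the point `x α` has value `b` at `n`; `c α β n` says that the pair
`(α, β)` has colour `n`; `e j β α k` says that the point `x α` lies in the `k`-th closed set of
coordinate `(j, β)`; `b j β t k` says that this closed set is disjoint from `[t]`. -/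
inductive Atom (J L : Type) : Type
  | x : W → ℕ → Bool → Atom J L
  | c : W → W → ℕ → Atom J L
  | e : J → L → W → ℕ → Atom J L
  | b : J → L → List Bool → ℕ → Atom J L

abbrev Rep (J L : Type) : Type := Finset (Atom J L)

variable {J L : Type}

/-- the atom belongs to a stage before `j` -/
def Atom.Bel [LT J] (a : Atom J L) (j : J) : Prop :=
  match a with
  | .x _ _ _ => True
  | .c _ _ _ => True
  | .e i _ _ _ => i < j
  | .b i _ _ _ => i < j

def Base (p : Rep J L) : Prop :=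
  (∀ α n, Atom.x α n true ∈ p → Atom.x α n false ∉ p) ∧
    (∀ α β n m, Atom.c α β n ∈ p → Atom.c α β m ∈ p → n = m)

def Sep (j : J) (p : Rep J L) : Prop :=
  ∀ β α k t, Atom.e j β α k ∈ p → Atom.b j β t k ∈ p →
    ∃ (n : ℕ) (c : Bool), t[n]? = some c ∧ Atom.x α n (!c) ∈ p

def Frc [LT J] (g : L → W → Set (Rep J L)) (V : Set (Rep J L)) (j : J) (p : Rep J L) : Prop :=
  ∀ β α k, Atom.e j β α k ∈ p → ∀ q ∈ V, (∀ a ∈ p, a.Bel j → a ∈ q) →
    ∃ r ∈ V, q ⊆ r ∧ ∃ s ∈ g β α, s ⊆ r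

variable (g : L → W → Set (Rep J L)) [LinearOrder J] [WellFoundedLT J]

/-- the conditions of the stages, by recursion -/
noncomputable def Vd : J → Set (Rep J L) :=
  WellFoundedLT.fix (motive := fun _ : J => Set (Rep J L)) fun j D =>
    {p | Base p ∧ (∀ a ∈ p, a.Bel j) ∧ ∀ i, ∀ h : i < j, Sep i p ∧ Frc g (D i h) i p}

theorem Vd_eq (j : J) : Vd g j = {p | Base p ∧ (∀ a ∈ p, a.Bel j) ∧
    ∀ i, i < j → Sep i p ∧ Frc g (Vd g i) i p} := by
  rw [Vd, WellFoundedLT.fix_eq]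

theorem mem_Vd {j : J} {p : Rep J L} : p ∈ Vd g j ↔ Base p ∧ (∀ a ∈ p, a.Bel j) ∧
    ∀ i, i < j → Sep i p ∧ Frc g (Vd g i) i p := by
  rw [Vd_eq]; rfl

/-- valid conditions -/
def Ok (p : Rep J L) : Prop := Base p ∧ ∀ i, Sep i p ∧ Frc g (Vd g i) i p

/-- the poset -/
def Cd : Type := {p : Rep J L // Ok g p}

variable {g}

instance : Preorder (Cd g) where
  le q p := p.1 ⊆ q.1
  le_refl _ := Finset.Subset.refl _
  le_trans _ _ _ h h' := h'.trans h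

theorem le_iff {q p : Cd g} : q ≤ p ↔ p.1 ⊆ q.1 := Iff.rfl

theorem Base.mono {p q : Rep J L} (h : Base p) (hq : q ⊆ p) : Base q :=
  ⟨fun α n h1 h2 => h.1 α n (hq h1) (hq h2), fun α β n m h1 h2 => h.2 α β n m (hq h1) (hq h2)⟩

theorem Base.ne {p : Rep J L} (h : Base p) {α : W} {n : ℕ} {b b' : Bool}
    (h1 : Atom.x α n b ∈ p) (h2 : Atom.x α n b' ∈ p) : b = b' := by
  cases b <;> cases b'
  · rfl
  · exact absurd h1 (h.1 α n h2)
  · exact absurd h2 (h.1 α n h1)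
  · rfl

theorem Base.of {p : Rep J L} (h : ∀ α n b b', Atom.x α n b ∈ p → Atom.x α n b' ∈ p → b = b')
    (h' : ∀ α β n m, Atom.c α β n ∈ p → Atom.c α β m ∈ p → n = m) : Base p :=
  ⟨fun α n h1 h2 => by simpa using h α n _ _ h1 h2, h'⟩

theorem ok_empty : Ok g (∅ : Rep J L) := by
  refine ⟨⟨fun α n h => ?_, fun α β n m h => ?_⟩, fun i => ⟨fun β α k t h => ?_,
    fun β α k h => ?_⟩⟩
  all_goals exact absurd h (Finset.notMem_empty _)

instance : Nonempty (Cd g) := ⟨⟨∅, ok_empty⟩⟩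

theorem Atom.Bel.mono {a : Atom J L} {i j : J} (h : a.Bel i) (hij : i ≤ j) : a.Bel j := by
  cases a with
  | x => trivial
  | c => trivial
  | e i' => exact lt_of_lt_of_le (h : i' < i) hij
  | b i' => exact lt_of_lt_of_le (h : i' < i) hij

open Classical in
noncomputable def res (p : Rep J L) (j : J) : Rep J L := p.filter fun a => a.Bel j

open Classical in
theorem mem_res {p : Rep J L} {j : J} {a : Atom J L} : a ∈ res p j ↔ a ∈ p ∧ a.Bel j :=
  Finset.mem_filter (p := fun a : Atom J L => a.Bel j)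

/-- restrictions of conditions are conditions of the stage -/
theorem res_mem {p : Rep J L} (hp : Ok g p) (j : J) : res p j ∈ Vd g j := by
  rw [mem_Vd]
  refine ⟨hp.1.mono fun a ha => (mem_res.1 ha).1, fun a ha => (mem_res.1 ha).2, fun i hi => ?_⟩
  obtain ⟨h1, h2⟩ := hp.2 i
  refine ⟨fun β α k t he hb => ?_, fun β α k he q hq hpq => ?_⟩
  · obtain ⟨n, c, h3, h4⟩ := h1 β α k t (mem_res.1 he).1 (mem_res.1 hb).1
    exact ⟨n, c, h3, mem_res.2 ⟨h4, trivial⟩⟩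
  · refine h2 β α k (mem_res.1 he).1 q hq fun a ha hai => ?_
    exact hpq a (mem_res.2 ⟨ha, hai.mono hi.le⟩) hai

/-- the conditions of the stages are conditions -/
theorem ok_of_mem {j : J} {q : Rep J L} (hq : q ∈ Vd g j) : Ok g q := by
  rw [mem_Vd] at hq
  obtain ⟨h1, h2, h3⟩ := hq
  refine ⟨h1, fun i => ?_⟩
  by_cases hi : i < j
  · exact h3 i hi
  · refine ⟨fun β α k t he _ => ?_, fun β α k he => ?_⟩
    · exact absurd (h2 _ he) hi
    · exact absurd (h2 _ he) hi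

/-- a condition of stage `j` extending the restriction of `p` is compatible with `p` -/
theorem glue [DecidableEq (Atom J L)] {j : J} {q p : Rep J L} (hq : q ∈ Vd g j) (hp : Ok g p)
    (h : ∀ a ∈ p, a.Bel j → a ∈ q) : Ok g (q ∪ p) := by
  rw [mem_Vd] at hq
  obtain ⟨h1, h2, h3⟩ := hq
  have hx : ∀ α n b, Atom.x α n b ∈ q ∪ p → Atom.x α n b ∈ q := by
    intro α n b hm
    rcases Finset.mem_union.1 hm with hm | hm
    · exact hm
    · exact h _ hm trivial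
  have hc : ∀ α β n, Atom.c α β n ∈ q ∪ p → Atom.c α β n ∈ q := by
    intro α β n hm
    rcases Finset.mem_union.1 hm with hm | hm
    · exact hm
    · exact h _ hm trivial
  refine ⟨Base.of (fun α n b b' hb hb' => h1.ne (hx _ _ _ hb) (hx _ _ _ hb'))
    fun α β n m hn hm => h1.2 α β n m (hc _ _ _ hn) (hc _ _ _ hm), fun i => ?_⟩
  by_cases hi : i < j
  · have hle : ∀ a : Atom J L, a ∈ q ∪ p → a.Bel j → a ∈ q := by
      intro a ha hb
      rcases Finset.mem_union.1 ha with hm | hm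
      · exact hm
      · exact h _ hm hb
    obtain ⟨h4, h5⟩ := h3 i hi
    refine ⟨fun β α k t he hb => ?_, fun β α k he q' hq' hpq => ?_⟩
    · obtain ⟨n, c, h6, h7⟩ := h4 β α k t (hle _ he hi) (hle _ hb hi)
      exact ⟨n, c, h6, Finset.mem_union_left _ h7⟩
    · exact h5 β α k (hle _ he hi) q' hq' fun a ha hai =>
        hpq a (Finset.mem_union_left _ ha) hai
  · have hge : ∀ a : Atom J L, a ∈ q ∪ p → ¬ a.Bel j → a ∈ p := by
      intro a ha hb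
      rcases Finset.mem_union.1 ha with hm | hm
      · exact absurd (h2 _ hm) hb
      · exact hm
    obtain ⟨h4, h5⟩ := hp.2 i
    refine ⟨fun β α k t he hb => ?_, fun β α k he q' hq' hpq => ?_⟩
    · obtain ⟨n, c, h6, h7⟩ := h4 β α k t (hge _ he hi) (hge _ hb hi)
      exact ⟨n, c, h6, Finset.mem_union_right _ h7⟩
    · exact h5 β α k (hge _ he hi) q' hq' fun a ha hai =>
        hpq a (Finset.mem_union_right _ ha) hai

/-- a promise about the point `x α` is kept -/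
theorem promise {p : Cd g} {j : J} {β : L} {α : W} {k : ℕ} (h : Atom.e j β α k ∈ p.1)
    {q : Cd g} (hq : q ≤ p) : ∃ r ≤ q, ∃ s ∈ g β α, s ⊆ r.1 := by
  classical
  have h1 := (q.2.2 j).2 β α k (hq h) (res q.1 j) (res_mem q.2 j)
    fun a ha hai => mem_res.2 ⟨ha, hai⟩
  obtain ⟨r, hr, hqr, s, hs, hsr⟩ := h1
  have h2 : Ok g (r ∪ q.1) := glue hr q.2 fun a ha hai => hqr (mem_res.2 ⟨ha, hai⟩)
  exact ⟨⟨r ∪ q.1, h2⟩, Finset.subset_union_right, s, hs, hsr.trans Finset.subset_union_left⟩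

/-- amalgamation -/
theorem amalg (r p : Cd g) (Z : Finset W) (h : W → W)
    (hZ : ∀ ζ n b, Atom.x ζ n b ∈ p.1 → ζ ∈ Z)
    (hid : ∀ ζ ∈ Z, ∀ n b, Atom.x ζ n b ∈ r.1 → h ζ = ζ)
    (hxx : ∀ ζ n b, Atom.x ζ n b ∈ p.1 → Atom.x (h ζ) n b ∈ r.1)
    (hc : ∀ α β n m, Atom.c α β n ∈ p.1 → Atom.c α β m ∈ r.1 → n = m)
    (heb : ∀ j β α k t, Atom.e j β α k ∈ p.1 → Atom.b j β t k ∈ r.1 →
      α ∈ Z ∧ Atom.e j β (h α) k ∈ r.1)
    (hbe : ∀ j β α k t, Atom.e j β α k ∈ r.1 → Atom.b j β t k ∈ p.1 → Atom.b j β t k ∈ r.1) :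
    ∃ u : Cd g, u ≤ r ∧ u ≤ p ∧ (∀ ζ ∈ Z, ∀ n b, Atom.x (h ζ) n b ∈ r.1 → Atom.x ζ n b ∈ u.1) ∧
      (∀ α β n, Atom.c α β n ∈ u.1 → Atom.c α β n ∈ r.1 ∨ Atom.c α β n ∈ p.1) := by
  classical
  let src : Finset (ℕ × Bool) := r.1.biUnion fun a => match a with
    | .x _ n b => {(n, b)}
    | _ => ∅
  let S : Finset (Atom J L) := ((Z ×ˢ src).filter fun z => Atom.x (h z.1) z.2.1 z.2.2 ∈ r.1).image
    fun z => Atom.x z.1 z.2.1 z.2.2
  have hS : ∀ a, a ∈ S ↔ ∃ ζ ∈ Z, ∃ n b, Atom.x (h ζ) n b ∈ r.1 ∧ a = Atom.x ζ n b := by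
    intro a
    simp only [S, Finset.mem_image, Finset.mem_filter, Finset.mem_product]
    constructor
    · rintro ⟨⟨ζ, n, b⟩, ⟨⟨h1, _⟩, h3⟩, rfl⟩
      exact ⟨ζ, h1, n, b, h3, rfl⟩
    · rintro ⟨ζ, h1, n, b, h3, rfl⟩
      refine ⟨⟨ζ, n, b⟩, ⟨⟨h1, ?_⟩, h3⟩, rfl⟩
      simp only [src, Finset.mem_biUnion]
      exact ⟨_, h3, by simp⟩
  have hmem : ∀ a, a ∈ r.1 ∪ p.1 ∪ S ↔ a ∈ r.1 ∨ a ∈ p.1 ∨ a ∈ S := by
    intro a; simp only [Finset.mem_union, or_assoc]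
  have hx1 : ∀ ζ ∈ Z, ∀ n b, Atom.x ζ n b ∈ r.1 ∪ p.1 ∪ S → Atom.x (h ζ) n b ∈ r.1 := by
    intro ζ hζ n b hm
    rcases (hmem _).1 hm with hm | hm | hm
    · rw [hid ζ hζ n b hm]; exact hm
    · exact hxx _ _ _ hm
    · obtain ⟨ζ', _, n', b', h1, h2⟩ := (hS _).1 hm
      obtain ⟨rfl, rfl, rfl⟩ := Atom.x.inj h2
      exact h1
  have hx2 : ∀ ζ ∉ Z, ∀ n b, Atom.x ζ n b ∈ r.1 ∪ p.1 ∪ S → Atom.x ζ n b ∈ r.1 := by
    intro ζ hζ n b hm
    rcases (hmem _).1 hm with hm | hm | hm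
    · exact hm
    · exact absurd (hZ _ _ _ hm) hζ
    · obtain ⟨ζ', h0, n', b', h1, h2⟩ := (hS _).1 hm
      obtain ⟨rfl, rfl, rfl⟩ := Atom.x.inj h2
      exact absurd h0 hζ
  have hcc : ∀ α β n, Atom.c α β n ∈ r.1 ∪ p.1 ∪ S → Atom.c α β n ∈ r.1 ∨ Atom.c α β n ∈ p.1 := by
    intro α β n hm
    rcases (hmem _).1 hm with hm | hm | hm
    · exact Or.inl hm
    · exact Or.inr hm
    · obtain ⟨_, _, _, _, _, h2⟩ := (hS _).1 hm
      exact absurd h2 (by simp)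
  have hee : ∀ j β α k, Atom.e j β α k ∈ r.1 ∪ p.1 ∪ S →
      Atom.e j β α k ∈ r.1 ∨ Atom.e j β α k ∈ p.1 := by
    intro j β α k hm
    rcases (hmem _).1 hm with hm | hm | hm
    · exact Or.inl hm
    · exact Or.inr hm
    · obtain ⟨_, _, _, _, _, h2⟩ := (hS _).1 hm
      exact absurd h2 (by simp)
  have hbb : ∀ j β t k, Atom.b j β t k ∈ r.1 ∪ p.1 ∪ S →
      Atom.b j β t k ∈ r.1 ∨ Atom.b j β t k ∈ p.1 := by
    intro j β α k hm
    rcases (hmem _).1 hm with hm | hm | hm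
    · exact Or.inl hm
    · exact Or.inr hm
    · obtain ⟨_, _, _, _, _, h2⟩ := (hS _).1 hm
      exact absurd h2 (by simp)
  have hr : r.1 ⊆ r.1 ∪ p.1 ∪ S := fun a ha => (hmem a).2 (Or.inl ha)
  have hp : p.1 ⊆ r.1 ∪ p.1 ∪ S := fun a ha => (hmem a).2 (Or.inr (Or.inl ha))
  have hok : Ok g (r.1 ∪ p.1 ∪ S) := by
    refine ⟨Base.of (fun α n b b' hb hb' => ?_) (fun α β n m hn hm => ?_), fun i =>
      ⟨fun β α k t he hb => ?_, fun β α k he q hq hpq => ?_⟩⟩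
    · by_cases hα : α ∈ Z
      · exact r.2.1.ne (hx1 α hα _ _ hb) (hx1 α hα _ _ hb')
      · exact r.2.1.ne (hx2 α hα _ _ hb) (hx2 α hα _ _ hb')
    · rcases hcc _ _ _ hn with hn | hn <;> rcases hcc _ _ _ hm with hm | hm
      · exact r.2.1.2 _ _ _ _ hn hm
      · exact (hc _ _ _ _ hm hn).symm
      · exact hc _ _ _ _ hn hm
      · exact p.2.1.2 _ _ _ _ hn hm
    · have hrr : ∀ α', Atom.e i β α' k ∈ r.1 → Atom.b i β t k ∈ r.1 →
          ∃ (n : ℕ) (c : Bool), t[n]? = some c ∧ Atom.x α' n (!c) ∈ r.1 :=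
        fun α' h1 h2 => (r.2.2 i).1 β α' k t h1 h2
      rcases hee _ _ _ _ he with he | he <;> rcases hbb _ _ _ _ hb with hb | hb
      · obtain ⟨n, c, h1, h2⟩ := hrr α he hb
        exact ⟨n, c, h1, hr h2⟩
      · obtain ⟨n, c, h1, h2⟩ := hrr α he (hbe _ _ _ _ _ he hb)
        exact ⟨n, c, h1, hr h2⟩
      · obtain ⟨hα, he'⟩ := heb _ _ _ _ _ he hb
        obtain ⟨n, c, h1, h2⟩ := hrr (h α) he' hb
        refine ⟨n, c, h1, (hmem _).2 (Or.inr (Or.inr ((hS _).2 ⟨α, hα, n, !c, h2, rfl⟩)))⟩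
      · obtain ⟨n, c, h1, h2⟩ := (p.2.2 i).1 β α k t he hb
        exact ⟨n, c, h1, hp h2⟩
    · rcases hee _ _ _ _ he with he | he
      · exact (r.2.2 i).2 β α k he q hq fun a ha hai => hpq a (hr ha) hai
      · exact (p.2.2 i).2 β α k he q hq fun a ha hai => hpq a (hp ha) hai
  refine ⟨⟨_, hok⟩, hr, hp, fun ζ hζ n b hm => ?_, hcc⟩
  exact (hmem _).2 (Or.inr (Or.inr ((hS _).2 ⟨ζ, hζ, n, b, hm, rfl⟩)))

end Pool.Agent.Helper919.DQ
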