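import Pool.Agent.Helper919_DQ.Square

set_option autoImplicit false
set_option linter.unusedSectionVars false

/-! # The generic set is a `Q`-set and a `Δ`-set -/

namespace Pool.Agent.Helper919.DQ

open Cardinal

variable {J L : Type} {g : L → W → Set (Rep J L)} [LinearOrder J] [WellFoundedLT J]

/-- the supports of at most `ℵ₁` conditions are bounded -/
theorem exists_below (hcof : ∀ S : Set J, #S ≤ ℵ_ 1 → ∃ b, ∀ s ∈ S, s < b)
    {A : Set (Cd g)} (hA : #A ≤ ℵ_ 1) : ∃ j : J, ∀ a ∈ A, ∀ x ∈ a.1, x.Bel j := by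
  classical
  let st : Atom J L → Set J := fun x => match x with
    | .x _ _ _ => ∅
    | .c _ _ _ => ∅
    | .e i _ _ _ => {i}
    | .b i _ _ _ => {i}
  have hst : ∀ x, (st x).Countable := by
    intro x
    cases x with
    | x => exact Set.countable_empty
    | c => exact Set.countable_empty
    | e i => exact Set.countable_singleton i
    | b i => exact Set.countable_singleton i
  obtain ⟨b, hb⟩ := hcof (⋃ a : A, ⋃ x ∈ a.1.1, st x) (by
    refine (mk_iUnion_le_sum_mk).trans ?_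
    refine (Cardinal.sum_le_sum _ (fun _ => ℵ₀) fun a => ?_).trans ?_
    · exact Cardinal.le_aleph0_iff_set_countable.2
        (Set.Countable.biUnion (Finset.countable_toSet _) fun x _ => hst x)
    · rw [Cardinal.sum_const']
      exact (mul_le_mul' hA (aleph0_le_aleph 1)).trans (mul_eq_self (aleph0_le_aleph 1)).le)
  refine ⟨b, fun a ha x hx => ?_⟩
  cases x with
  | x => trivial
  | c => trivial
  | e i β α k =>
    refine hb i (Set.mem_iUnion.2 ⟨⟨a, ha⟩, ?_⟩)
    simp only [Set.mem_iUnion]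
    exact ⟨_, hx, rfl⟩
  | b i β t k =>
    refine hb i (Set.mem_iUnion.2 ⟨⟨a, ha⟩, ?_⟩)
    simp only [Set.mem_iUnion]
    exact ⟨_, hx, rfl⟩

theorem down_bname (j : J) (β : L) (t : List Bool) (k : ℕ) :
    Down {p : Cd g | Atom.b j β t k ∈ p.1} := fun _ hp _ hq => hq hp

/-- every subset of the generic set is a relative `G_δ` -/
theorem q_iff (hcof : ∀ S : Set J, #S ≤ ℵ_ 1 → ∃ b, ∀ s ∈ S, s < b)
    (hg : ∀ N : W → Set (Rep J L), (∀ α, (N α).Countable) → ∃ β, g β = N)
    (A : W → Set (Cd g)) : ∃ U : ℕ → List Bool → Set (Cd g), ∀ p α,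
      (p ∈ meets (A α) ↔ ∀ k, p ∈ InO (xn g α) (U k)) := by
  classical
  choose N hN1 hN2 hN3 using fun α : W => exists_antichain (fnot (meets (A α)))
  obtain ⟨j, hj⟩ := exists_below (g := g) hcof (A := ⋃ α, N α) (by
    refine (mk_iUnion_le_sum_mk).trans ?_
    refine (Cardinal.sum_le_sum _ (fun _ => ℵ₀) fun x => ?_).trans ?_
    · exact Cardinal.le_aleph0_iff_set_countable.2 (hN2 _)
    · rw [Cardinal.sum_const', mk_W]
      exact (mul_le_mul' le_rfl (aleph0_le_aleph 1)).trans (mul_eq_self (aleph0_le_aleph 1)).le)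
  obtain ⟨β, hβ⟩ := hg (fun α => (fun a : Cd g => a.1) '' N α) fun α => (hN2 α).image _
  refine ⟨fun k t => {p | Atom.b j β t k ∈ p.1}, fun p α => ⟨fun hp k => ?_, fun hp => ?_⟩⟩
  · refine mem_fex.2 fun q hq => ?_
    have hne : Atom.e j β α k ∉ q.1 := by
      intro he
      obtain ⟨r, hr, s, hs, hsr⟩ := promise he (q := q) le_rfl
      rw [hβ] at hs
      obtain ⟨a, ha, rfl⟩ := hs
      exact hN1 α ha r hsr (down_meets _ p hp r (hr.trans hq))
    obtain ⟨r, hr, t, ht, hH⟩ := add_b q j β α k hne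
    exact ⟨r, hr, t, meets_of_mem ht, Cyl_of_has hH⟩
  · refine reg_meets _ p fun q hq => ?_
    by_contra hcon
    push Not at hcon
    have hqA : q ∈ fnot (meets (A α)) := hcon
    obtain ⟨r, hr, k, he⟩ := add_e q j β α (by
      intro q0 hq0 hsub
      have hu : Ok g (q0 ∪ q.1) := glue hq0 q.2 hsub
      let u : Cd g := ⟨q0 ∪ q.1, hu⟩
      have huq : u ≤ q := fun x hx => Finset.mem_union_right _ hx
      obtain ⟨a, ha, s, hs1, hs2⟩ := hN3 α u (down_fnot _ q hqA _ huq)
      refine ⟨res s.1 j, res_mem s.2 j, fun x hx => ?_, a.1, ?_, fun x hx => ?_⟩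
      · exact mem_res.2 ⟨hs2 (Finset.mem_union_left _ hx), ((mem_Vd g).1 hq0).2.1 x hx⟩
      · rw [hβ]; exact ⟨a, ha, rfl⟩
      · exact mem_res.2 ⟨hs1 hx, hj a (Set.mem_iUnion.2 ⟨α, ha⟩) x hx⟩)
    obtain ⟨r1, hr1, t, h1, h2⟩ := mem_fex.1 (hp k) r (hr.trans hq)
    obtain ⟨r2, hr2, h3⟩ := exists_of_meets (down_bname j β t k) h1
    obtain ⟨r3, hr3, h4⟩ := has_of_Cyl (down_Cyl _ _ _ h2 r2 hr2)
    obtain ⟨n, c, h5, h6⟩ := (r3.2.2 j).1 β α k t (hr3 (hr2 (hr1 he))) (hr3 h3)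
    have := r3.2.1.ne (h4 n c h5) h6
    cases c <;> simp at this

theorem qSet_xn (hcof : ∀ S : Set J, #S ≤ ℵ_ 1 → ∃ b, ∀ s ∈ S, s < b)
    (hg : ∀ N : W → Set (Rep J L), (∀ α, (N α).Countable) → ∃ β, g β = N) (p : Cd g) :
    p ∈ QSet (xn g) := by
  intro A
  obtain ⟨U, hU⟩ := q_iff hcof hg A
  refine mem_fex.2 fun q _ => ⟨q, le_rfl, U, fun α => ⟨?_, ?_⟩⟩
  · exact mem_fimp.2 fun r _ hr => ⟨r, le_rfl, (hU r α).1 hr⟩
  · exact mem_fimp.2 fun r _ hr => ⟨r, le_rfl, (hU r α).2 hr⟩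

/-- two strings followed by the same point are comparable -/
theorem prefix_or {p : Cd g} {α : W} {t t' : List Bool} (h : Has p.1 α t) (h' : Has p.1 α t') :
    t <+: t' ∨ t' <+: t := by
  have key : ∀ {t t' : List Bool}, Has p.1 α t → Has p.1 α t' → t.length ≤ t'.length →
      t <+: t' := by
    intro t t' h h' hl
    rw [List.prefix_iff_eq_take]
    refine List.ext_getElem? fun n => ?_
    by_cases hn : n < t.length
    · rw [List.getElem?_take_of_lt hn]
      have h1 : t[n]? = some t[n] := List.getElem?_eq_getElem hn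
      have h2 : t'[n]? = some (t'[n]'(lt_of_lt_of_le hn hl)) := List.getElem?_eq_getElem _
      rw [h1, h2, p.2.1.ne (h n _ h1) (h' n _ h2)]
    · rw [List.getElem?_eq_none (not_lt.1 hn), List.getElem?_eq_none]
      rw [List.length_take]
      omega
  rcases le_total t.length t'.length with hl | hl
  · exact Or.inl (key h h' hl)
  · exact Or.inr (key h' h hl)

variable (g) in
/-- the intersection of finitely many open sets -/
def Vn (Wn : ℕ → ℕ → List Bool → Set (Cd g)) (n : ℕ) (t : List Bool) : Set (Cd g) :=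
  {p | ∀ i ≤ n, ∀ k ≤ n, ∃ t', t' <+: t ∧ p ∈ meets (Wn i k t')}

theorem down_Vn (Wn : ℕ → ℕ → List Bool → Set (Cd g)) (n : ℕ) (t : List Bool) :
    Down (Vn g Wn n t) := by
  intro p hp q hq i hi k hk
  obtain ⟨t', h1, h2⟩ := hp i hi k hk
  exact ⟨t', h1, down_meets _ _ h2 q hq⟩

theorem inO_Vn (Wn : ℕ → ℕ → List Bool → Set (Cd g)) (n : ℕ) (p : Cd g) (α : W) :
    p ∈ InO (xn g α) (Vn g Wn n) ↔ ∀ i ≤ n, ∀ k ≤ n, p ∈ InO (xn g α) (Wn i k) := by
  classical
  constructor
  · intro hp i hi k hk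
    refine mem_fex.2 fun q hq => ?_
    obtain ⟨r, hr, t, h1, h2⟩ := mem_fex.1 hp q hq
    obtain ⟨s, hs, h3⟩ := exists_of_meets (down_Vn Wn n t) h1
    obtain ⟨t', h4, h5⟩ := h3 i hi k hk
    exact ⟨s, hs.trans hr, t', h5, Cyl_prefix h4 (down_Cyl _ _ _ h2 s hs)⟩
  · intro hp
    refine mem_fex.2 fun q hq => ?_
    have key : ∀ F : Finset (ℕ × ℕ), (∀ z ∈ F, z.1 ≤ n ∧ z.2 ≤ n) → ∃ r ≤ q, ∃ t, Has r.1 α t ∧
        ∀ z ∈ F, ∃ t', t' <+: t ∧ r ∈ meets (Wn z.1 z.2 t') := by
      intro F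
      induction F using Finset.induction_on with
      | empty =>
        intro _
        exact ⟨q, le_rfl, [], fun m c h => by simp at h, fun z hz => absurd hz (by simp)⟩
      | insert z F hz ih =>
        intro hF
        obtain ⟨r, hr, t, h1, h2⟩ := ih fun w hw => hF w (Finset.mem_insert_of_mem hw)
        have hzn := hF z (Finset.mem_insert_self z F)
        obtain ⟨s, hs, t1, h3, h4⟩ := mem_fex.1 (hp z.1 hzn.1 z.2 hzn.2) r (hr.trans hq)
        obtain ⟨u, hu, h5⟩ := has_of_Cyl h4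
        have hur : u ≤ r := hu.trans hs
        have h1' : Has u.1 α t := h1.mono hur
        have h3' : u ∈ meets (Wn z.1 z.2 t1) := down_meets _ _ h3 u hu
        rcases prefix_or h1' h5 with hp1 | hp1
        · refine ⟨u, hur.trans hr, t1, h5, fun w hw => ?_⟩
          rcases Finset.mem_insert.1 hw with rfl | hw
          · exact ⟨t1, List.prefix_rfl, h3'⟩
          · obtain ⟨t', h6, h7⟩ := h2 w hw
            exact ⟨t', h6.trans hp1, down_meets _ _ h7 u hur⟩
        · refine ⟨u, hur.trans hr, t, h1', fun w hw => ?_⟩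
          rcases Finset.mem_insert.1 hw with rfl | hw
          · exact ⟨t1, hp1, h3'⟩
          · obtain ⟨t', h6, h7⟩ := h2 w hw
            exact ⟨t', h6, down_meets _ _ h7 u hur⟩
    obtain ⟨r, hr, t, h1, h2⟩ := key (Finset.range (n + 1) ×ˢ Finset.range (n + 1)) (by
      intro z hz
      simp only [Finset.mem_product, Finset.mem_range] at hz
      omega)
    refine ⟨r, hr, t, meets_of_mem fun i hi k hk => ?_, Cyl_of_has h1⟩
    exact h2 (i, k) (by simp only [Finset.mem_product, Finset.mem_range]; omega)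

theorem deltaSet_xn (hcof : ∀ S : Set J, #S ≤ ℵ_ 1 → ∃ b, ∀ s ∈ S, s < b)
    (hg : ∀ N : W → Set (Rep J L), (∀ α, (N α).Countable) → ∃ β, g β = N) (p : Cd g) :
    p ∈ DeltaSet (xn g) := by
  intro D
  refine mem_fimp.2 fun q _ hq => ⟨q, le_rfl, mem_fex.2 fun q' hq' => ?_⟩
  choose Wn hW using fun n => q_iff hcof hg (D n)
  have hdec : ∀ α, ∀ r ≤ q, ∀ n i, i ≤ n → r ∈ meets (D n α) → r ∈ meets (D i α) := by
    intro α r hr n i hi
    induction n, hi using Nat.le_induction with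
    | base => exact id
    | succ n _ ih =>
      intro h
      exact ih ((fimp_iff (down_meets _) (reg_meets _)).1 (hq.1 n α) r hr h)
  refine ⟨q', le_rfl, Vn g Wn, fun n α => ?_, fun n α => ?_, fun α r hr hV => ?_⟩
  · refine mem_fimp.2 fun r hr h => ⟨r, le_rfl, ?_⟩
    rw [inO_Vn]
    intro i hi k _
    exact (hW i r α).1 (hdec α r (hr.trans hq') n i hi h) k
  · refine mem_fimp.2 fun r _ h => ⟨r, le_rfl, ?_⟩
    rw [inO_Vn] at h ⊢
    exact fun i hi k hk => h i (hi.trans (Nat.le_succ n)) k (hk.trans (Nat.le_succ n))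
  · refine hq.2 α r (hr.trans hq') fun i => ?_
    rw [hW i r α]
    intro k
    have := hV (max i k)
    rw [inO_Vn] at this
    exact this i (le_max_left _ _) k (le_max_right _ _)

end Pool.Agent.Helper919.DQ
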