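import Pool.Agent.Helper919_DQ.Thin

set_option autoImplicit false
set_option linter.unusedSectionVars false

/-! # The square of the generic set is not a `Δ`-set -/

namespace Pool.Agent.Helper919.DQ

open Cardinal

variable {J L : Type} {g : L → W → Set (Rep J L)} [LinearOrder J] [WellFoundedLT J]

theorem mk_W : #W = ℵ_ 1 := by rw [mk_toType, card_ord]

theorem not_countable_W : ¬ Countable W := by
  rw [← mk_le_aleph0_iff, mk_W, not_le]
  exact aleph0_lt_aleph_one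

theorem exists_pairs : ∃ a b : W → W, Function.Injective a ∧ Function.Injective b ∧
    ∀ y, a y ≠ b y := by
  have h : #(W ⊕ W) = #W := by
    rw [mk_sum, lift_id, mk_W]
    exact add_eq_self (aleph0_le_aleph 1)
  obtain ⟨e⟩ := Cardinal.eq.1 h
  refine ⟨fun y => e (Sum.inl y), fun y => e (Sum.inr y), fun y y' h => ?_, fun y y' h => ?_,
    fun y h => ?_⟩
  · exact Sum.inl_injective (e.injective h)
  · exact Sum.inr_injective (e.injective h)
  · exact absurd (e.injective h) (by simp)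

variable (g) in
/-- the name of the set of the pairs of points of colour at least `n` -/
def Dn (n : ℕ) (α β : W) : Set (Cd g) := {p | ∃ m ≥ n, Atom.c α β m ∈ p.1}

theorem down_Dn (n : ℕ) (α β : W) : Down (Dn g n α β) := by
  rintro p ⟨m, hm, h⟩ q hq
  exact ⟨m, hm, hq h⟩

theorem not_deltaSq (p : Cd g) : p ∈ fnot (DeltaSq (xn g)) := by
  classical
  intro q _ hΔ
  have hD := hΔ (Dn g)
  obtain ⟨p0, _, h0⟩ := mem_fimp.1 hD q le_rfl (by
    refine ⟨fun n α β => ?_, fun α β r hr hm => ?_⟩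
    · refine mem_fimp.2 fun r _ hr => ⟨r, le_rfl, fun s hs => ?_⟩
      obtain ⟨u, hu, v, ⟨m, hm, hv⟩, huv⟩ := hr s hs
      exact ⟨u, hu, v, ⟨m, (Nat.le_succ n).trans hm, hv⟩, huv⟩
    · obtain ⟨s, hs, m, hc⟩ := decide_c r α β
      obtain ⟨u, hu, m', hm', hc'⟩ := exists_of_meets (down_Dn (m + 1) α β)
        (down_meets _ r (hm (m + 1)) s hs)
      have := u.2.1.2 _ _ _ _ (hu hc) hc'
      omega)
  obtain ⟨p1, _, V, h1, _, h3⟩ := mem_fex.1 h0 p0 le_rfl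
  obtain ⟨a, b, ha, hb, hab⟩ := exists_pairs
  have hex : ∀ y : W, ∃ (f : Cd g) (N : ℕ), f ≤ p1 ∧
      f ∈ fnot (InO2 (xn g (a y)) (xn g (b y)) (V N)) := by
    intro y
    have h4 := h3 (a y) (b y) p1 le_rfl
    simp only [fall, Set.mem_ofPred_eq, not_forall] at h4
    obtain ⟨N, hN⟩ := h4
    have h5 : ¬ ∀ q' ≤ p1, ∃ r ≤ q', r ∈ InO2 (xn g (a y)) (xn g (b y)) (V N) :=
      fun h => hN (reg_InO2 _ _ _ _ h)
    push Not at h5
    obtain ⟨q', hq', h6⟩ := h5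
    exact ⟨q', N, hq', h6⟩
  choose f N hf hfN using hex
  obtain ⟨S, R, Y', hT⟩ := thin not_countable_W f a b N
  have hC : ({y | Sum.inl (a y) ∈ R} ∪ {y | Sum.inl (b y) ∈ R} : Set W).Countable := by
    refine Set.Countable.union ?_ ?_
    · exact ((Finset.countable_toSet R).preimage_of_injOn
        (f := fun y => (Sum.inl (a y) : W ⊕ (J × L)))
        (fun y _ y' _ h => ha (Sum.inl_injective h)))
    · exact ((Finset.countable_toSet R).preimage_of_injOn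
        (f := fun y => (Sum.inl (b y) : W ⊕ (J × L)))
        (fun y _ y' _ h => hb (Sum.inl_injective h)))
  obtain ⟨y1, hy1, hy1C, _⟩ := hT.exists_far Set.countable_empty hC
  obtain ⟨y2, hy2, hy2C, hfar2⟩ := hT.exists_far (F := crds (f y1).1 ∪ S y1)
    ((crds_finite (f y1).1).countable.union (Finset.countable_toSet _)) hC
  obtain ⟨u, hu1, hu2, hu3⟩ := hT.amalg0 hy1 hy2 fun x hx hx' => hfar2 x hx (Or.inl hx')
  have hb2R : (Sum.inl (b y2) : W ⊕ (J × L)) ∉ R := fun h => hy2C (Or.inr h)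
  have ha1R : (Sum.inl (a y1) : W ⊕ (J × L)) ∉ R := fun h => hy1C (Or.inl h)
  have hnc : ∀ m, Atom.c (a y1) (b y2) m ∉ u.1 := by
    intro m hm
    rcases hu3 _ _ _ hm with h | h
    · exact hb2R (hfar2 _ (hT.mb y2) (Or.inl ⟨_, h, Or.inr rfl⟩))
    · exact ha1R (hfar2 _ (hT.sub y2 _ h (Or.inl rfl)) (Or.inr (hT.ma y1)))
  obtain ⟨q1, hq1, hc⟩ := add_c u (a y1) (b y2) (N y1) hnc
  have hq1p : q1 ≤ p1 := hq1.trans (hu1.trans (hf y1))
  obtain ⟨q2, hq2, h4⟩ := mem_fimp.1 (h1 (N y1) (a y1) (b y2)) q1 hq1p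
    (meets_of_mem ⟨N y1, le_rfl, hc⟩)
  obtain ⟨q3, hq3, t, h5⟩ := mem_fex.1 h4 q2 le_rfl
  obtain ⟨q4, hq4, t', h6, h7, h8⟩ := mem_fex.1 h5 q3 le_rfl
  obtain ⟨q5, hq5, h9⟩ := has_of_Cyl h7
  obtain ⟨r, hr, h10⟩ := has_of_Cyl (down_Cyl _ _ _ h8 q5 hq5)
  have h9' : Has r.1 (a y1) t := h9.mono hr
  have hru : r ≤ u := hr.trans (hq5.trans (hq4.trans (hq3.trans (hq2.trans hq1))))
  have hr1 : r ≤ f y1 := hru.trans hu1
  have hr2 : r ≤ f y2 := hru.trans hu2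
  have hrV : r ∈ meets (V (N y1) t t') := down_meets _ _ h6 r (hr.trans hq5)
  obtain ⟨y3, hy3, hy3C, hfar3⟩ := hT.exists_far (crds_finite r.1).countable hC
  have ha3R : (Sum.inl (a y3) : W ⊕ (J × L)) ∉ R := fun h => hy3C (Or.inl h)
  have hb3R : (Sum.inl (b y3) : W ⊕ (J × L)) ∉ R := fun h => hy3C (Or.inr h)
  have hsm : ∀ {y ζ ζ'}, r ≤ f y → Same R (f y3).1 (f y).1 ζ ζ' → Same R (f y3).1 r.1 ζ ζ' :=
    fun hle h => ⟨fun n b hx => hle (h.1 n b hx), fun j β k hj he => hle (h.2 j β k hj he)⟩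
  have hexH : ∀ ζ, ∃ ζ', (Sum.inl ζ ∈ S y3 → Same R (f y3).1 r.1 ζ ζ') ∧
      (ζ = a y3 → ζ' = a y1) ∧ (ζ = b y3 → ζ' = b y2) := by
    intro ζ
    by_cases hza : ζ = a y3
    · refine ⟨a y1, fun _ => ?_, fun _ => rfl, fun h => ?_⟩
      · rw [hza]; exact hsm hr1 (hT.sa y3 hy3 y1 hy1)
      · exact absurd (hza.symm.trans h) (hab y3)
    · by_cases hzb : ζ = b y3
      · refine ⟨b y2, fun _ => ?_, fun h => absurd h hza, fun _ => rfl⟩
        rw [hzb]; exact hsm hr2 (hT.sb y3 hy3 y2 hy2)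
      · by_cases hζ : Sum.inl ζ ∈ S y3
        · obtain ⟨ζ', _, h11⟩ := hT.sz y3 hy3 y1 hy1 ζ hζ
          exact ⟨ζ', fun _ => hsm hr1 h11, fun h => absurd h hza, fun h => absurd h hzb⟩
        · exact ⟨ζ, fun h => absurd h hζ, fun h => absurd h hza, fun h => absurd h hzb⟩
  choose H hH1 hH2 hH3 using hexH
  obtain ⟨v, hv1, hv2, hv3, _⟩ := hT.amalg hy1 hy3 r hr1 hfar3 H fun ζ hζ _ => hH1 ζ hζ
  have hN : N y3 = N y1 := hT.eN y3 hy3 y1 hy1
  refine hfN y3 v hv2 ?_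
  rw [hN]
  refine mem_fex_of_mem t (down_fex _) (mem_fex_of_mem t'
    (down_fand (down_meets _) (down_fand (down_Cyl _ _) (down_Cyl _ _)))
    ⟨down_meets _ _ hrV v hv1, Cyl_of_has fun n c hn => ?_, Cyl_of_has fun n c hn => ?_⟩)
  · exact hv3 (a y3) (hT.ma y3) ha3R n c (by rw [hH2 _ rfl]; exact h9' n c hn)
  · exact hv3 (b y3) (hT.mb y3) hb3R n c (by rw [hH3 _ rfl]; exact h10 n c hn)

end Pool.Agent.Helper919.DQ
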