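import Pool.Agent.Helper919_DQ.Dense

set_option autoImplicit false
set_option linter.unusedSectionVars false

/-! # Thinning out uncountable families of conditions -/

namespace Pool.Agent.Helper919.DQ

open Cardinal

theorem exists_fiber {Y Z : Type} {Y0 : Set Y} (hY : ¬ Y0.Countable) (f : Y → Z) {C : Set Z}
    (hC : C.Countable) (hf : ∀ y ∈ Y0, f y ∈ C) : ∃ z ∈ C, ¬ {y ∈ Y0 | f y = z}.Countable := by
  by_contra hcon
  push Not at hcon
  apply hY
  refine (hC.biUnion hcon).mono fun y hy => ?_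
  simp only [Set.mem_iUnion]
  exact ⟨f y, hf y hy, hy, rfl⟩

theorem exists_fiber' {Y Z : Type} [Countable Z] {Y0 : Set Y} (hY : ¬ Y0.Countable) (f : Y → Z) :
    ∃ z, ¬ {y ∈ Y0 | f y = z}.Countable := by
  obtain ⟨z, _, h⟩ := exists_fiber hY f (C := Set.univ) (Set.to_countable _) (by simp)
  exact ⟨z, h⟩

theorem exists_root {Y X : Type} (S : Y → Finset X) {Y0 : Set Y} (hY : ¬ Y0.Countable) :
    ∃ R : Finset X, ∃ Y' ⊆ Y0, ¬ Y'.Countable ∧ ∀ x ∉ R, {y ∈ Y' | x ∈ S y}.Countable := by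
  classical
  have key : ∀ d : ℕ, ∀ (R : Finset X) (Y1 : Set Y), Y1 ⊆ Y0 → ¬ Y1.Countable →
      (∀ y ∈ Y1, R ⊆ S y ∧ (S y).card = R.card + d) →
      ∃ R : Finset X, ∃ Y' ⊆ Y0, ¬ Y'.Countable ∧ ∀ x ∉ R, {y ∈ Y' | x ∈ S y}.Countable := by
    intro d
    induction d with
    | zero =>
      intro R Y1 h1 h2 h3
      refine ⟨R, Y1, h1, h2, fun x hx => ?_⟩
      have : {y ∈ Y1 | x ∈ S y} = ∅ := by
        ext y
        simp only [Set.mem_ofPred_eq, Set.mem_empty_iff_false, iff_false, not_and]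
        intro hy hxS
        obtain ⟨h4, h5⟩ := h3 y hy
        rw [← Finset.eq_of_subset_of_card_le h4 (by omega)] at hxS
        exact hx hxS
      rw [this]
      exact Set.countable_empty
    | succ d ih =>
      intro R Y1 h1 h2 h3
      by_cases hR : ∀ x ∉ R, {y ∈ Y1 | x ∈ S y}.Countable
      · exact ⟨R, Y1, h1, h2, hR⟩
      · push Not at hR
        obtain ⟨x, hx, h4⟩ := hR
        refine ih (insert x R) {y ∈ Y1 | x ∈ S y} (fun y hy => h1 hy.1) h4 fun y hy => ?_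
        obtain ⟨h5, h6⟩ := h3 y hy.1
        refine ⟨Finset.insert_subset hy.2 h5, ?_⟩
        rw [Finset.card_insert_of_notMem hx, h6]
        omega
  obtain ⟨n, hn⟩ := exists_fiber' hY fun y => (S y).card
  exact key n ∅ _ (fun y hy => hy.1) hn fun y hy => ⟨Finset.empty_subset _, by simp [hy.2]⟩

variable {J L : Type}

/-- the coordinates of an atom -/
def crd : Atom J L → Set (W ⊕ (J × L))
  | .x α _ _ => {Sum.inl α}
  | .c α β _ => {Sum.inl α, Sum.inl β}
  | .e j β α _ => {Sum.inl α, Sum.inr (j, β)}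
  | .b j β _ _ => {Sum.inr (j, β)}

/-- the coordinates of a set of atoms -/
def crds (p : Rep J L) : Set (W ⊕ (J × L)) := {x | ∃ a ∈ p, x ∈ crd a}

theorem crds_finite (p : Rep J L) : (crds p).Finite := by
  have : crds p = ⋃ a ∈ p, crd a := by
    ext x; simp [crds]
  rw [this]
  refine Set.Finite.biUnion p.finite_toSet fun a _ => ?_
  cases a <;> simp [crd]

theorem crds_mono {p q : Rep J L} (h : p ⊆ q) : crds p ⊆ crds q :=
  fun _ ⟨a, ha, hx⟩ => ⟨a, h ha, hx⟩

theorem countable_root (R : Finset (W ⊕ (J × L))) : {a : Atom J L | crd a ⊆ R}.Countable := by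
  classical
  have h1 : ((⋃ x ∈ R, ⋃ y ∈ R, {a : Atom J L | crd a = {x, y}})).Countable := by
    refine Set.Countable.biUnion (Finset.countable_toSet R) fun x _ => ?_
    refine Set.Countable.biUnion (Finset.countable_toSet R) fun y _ => ?_
    have : {a : Atom J L | crd a = {x, y}} ⊆
        Set.range (fun z : ℕ × Bool × (List Bool) =>
          (match x, y with
          | Sum.inl α, Sum.inl _ => Atom.x α z.1 z.2.1
          | Sum.inl α, Sum.inr (j, β) => Atom.e j β α z.1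
          | Sum.inr (j, β), Sum.inl α => Atom.e j β α z.1
          | Sum.inr (j, β), Sum.inr _ => Atom.b j β z.2.2 z.1)) ∪
        Set.range (fun z : ℕ × Bool × (List Bool) =>
          (match x, y with
          | Sum.inl α, Sum.inl β => Atom.c α β z.1
          | Sum.inl α, Sum.inr (j, β) => Atom.e j β α z.1
          | Sum.inr (j, β), Sum.inl α => Atom.e j β α z.1
          | Sum.inr (j, β), Sum.inr _ => Atom.b j β z.2.2 z.1)) ∪
        Set.range (fun z : ℕ × Bool × (List Bool) =>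
          (match x, y with
          | Sum.inl α, Sum.inl β => Atom.c β α z.1
          | Sum.inl α, Sum.inr (j, β) => Atom.e j β α z.1
          | Sum.inr (j, β), Sum.inl α => Atom.e j β α z.1
          | Sum.inr (j, β), Sum.inr _ => Atom.b j β z.2.2 z.1)) := by
      intro a ha
      simp only [Set.mem_ofPred_eq] at ha
      cases a with
      | x α n b =>
        left; left
        have hx : x ∈ ({Sum.inl α} : Set (W ⊕ (J × L))) := by
          have : x ∈ crd (Atom.x α n b : Atom J L) := by rw [ha]; simp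
          exact this
        have hy : y ∈ ({Sum.inl α} : Set (W ⊕ (J × L))) := by
          have : y ∈ crd (Atom.x α n b : Atom J L) := by rw [ha]; simp
          exact this
        simp only [Set.mem_singleton_iff] at hx hy
        subst hx; subst hy
        exact ⟨(n, b, []), rfl⟩
      | c α β n =>
        have hx : x ∈ ({Sum.inl α, Sum.inl β} : Set (W ⊕ (J × L))) := by
          have : x ∈ crd (Atom.c α β n : Atom J L) := by rw [ha]; simp
          exact this
        have hy : y ∈ ({Sum.inl α, Sum.inl β} : Set (W ⊕ (J × L))) := by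
          have : y ∈ crd (Atom.c α β n : Atom J L) := by rw [ha]; simp
          exact this
        have hα : Sum.inl α ∈ ({x, y} : Set (W ⊕ (J × L))) := by
          rw [← ha]; simp [crd]
        have hβ : Sum.inl β ∈ ({x, y} : Set (W ⊕ (J × L))) := by
          rw [← ha]; simp [crd]
        simp only [Set.mem_insert_iff, Set.mem_singleton_iff] at hx hy hα hβ
        rcases hx with rfl | rfl
        · rcases hy with rfl | rfl
          · have : β = α := by simpa using hβ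
            subst this
            left; right
            exact ⟨(n, true, []), rfl⟩
          · left; right
            exact ⟨(n, true, []), rfl⟩
        · rcases hy with rfl | rfl
          · right
            exact ⟨(n, true, []), rfl⟩
          · have : α = β := by simpa using hα
            subst this
            left; right
            exact ⟨(n, true, []), rfl⟩
      | e j β α n =>
        have hx : x ∈ ({Sum.inl α, Sum.inr (j, β)} : Set (W ⊕ (J × L))) := by
          have : x ∈ crd (Atom.e j β α n : Atom J L) := by rw [ha]; simp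
          exact this
        have hy : y ∈ ({Sum.inl α, Sum.inr (j, β)} : Set (W ⊕ (J × L))) := by
          have : y ∈ crd (Atom.e j β α n : Atom J L) := by rw [ha]; simp
          exact this
        have hα : Sum.inl α ∈ ({x, y} : Set (W ⊕ (J × L))) := by
          rw [← ha]; simp [crd]
        have hβ : Sum.inr (j, β) ∈ ({x, y} : Set (W ⊕ (J × L))) := by
          rw [← ha]; simp [crd]
        simp only [Set.mem_insert_iff, Set.mem_singleton_iff] at hx hy hα hβ
        left; left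
        rcases hx with rfl | rfl
        · rcases hy with rfl | rfl
          · exact absurd hβ (by simp)
          · exact ⟨(n, true, []), rfl⟩
        · rcases hy with rfl | rfl
          · exact ⟨(n, true, []), rfl⟩
          · exact absurd hα (by simp)
      | b j β t k =>
        left; left
        have hx : x ∈ ({Sum.inr (j, β)} : Set (W ⊕ (J × L))) := by
          have : x ∈ crd (Atom.b j β t k : Atom J L) := by rw [ha]; simp
          exact this
        have hy : y ∈ ({Sum.inr (j, β)} : Set (W ⊕ (J × L))) := by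
          have : y ∈ crd (Atom.b j β t k : Atom J L) := by rw [ha]; simp
          exact this
        simp only [Set.mem_singleton_iff] at hx hy
        subst hx; subst hy
        exact ⟨(k, true, t), rfl⟩
    exact Set.Countable.mono this
      (((Set.countable_range _).union (Set.countable_range _)).union (Set.countable_range _))
  refine h1.mono fun a ha => ?_
  simp only [Set.mem_iUnion]
  have ha' : crd a ⊆ R := ha
  cases a with
  | x α n b => exact ⟨Sum.inl α, ha' (by simp [crd]), Sum.inl α, ha' (by simp [crd]), by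
      simp [crd]⟩
  | c α β n => exact ⟨Sum.inl α, ha' (by simp [crd]), Sum.inl β, ha' (by simp [crd]), by
      simp [crd]⟩
  | e j β α n => exact ⟨Sum.inl α, ha' (by simp [crd]), Sum.inr (j, β), ha' (by simp [crd]), by
      simp [crd]⟩
  | b j β t k => exact ⟨Sum.inr (j, β), ha' (by simp [crd]), Sum.inr (j, β), ha' (by simp [crd]),
      by simp [crd]⟩

open Classical in
/-- the atoms with all coordinates in the root -/
noncomputable def rpt (R : Finset (W ⊕ (J × L))) (p : Rep J L) : Rep J L :=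
  p.filter fun x => crd x ⊆ (R : Set (W ⊕ (J × L)))

open Classical in
theorem mem_rpt {R : Finset (W ⊕ (J × L))} {p : Rep J L} {x : Atom J L} :
    x ∈ rpt R p ↔ x ∈ p ∧ crd x ⊆ (R : Set (W ⊕ (J × L))) :=
  Finset.mem_filter (p := fun x : Atom J L => crd x ⊆ (R : Set (W ⊕ (J × L))))

theorem countable_finsets {X : Type} {C : Set X} (hC : C.Countable) :
    {F : Finset X | (F : Set X) ⊆ C}.Countable := by
  have h := Set.countable_ofPred_finite_subset hC
  refine (h.preimage_of_injOn (f := fun F : Finset X => (F : Set X))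
    (Finset.coe_injective.injOn)).mono fun F hF => ?_
  exact ⟨F.finite_toSet, hF⟩

variable {g : L → W → Set (Rep J L)} [LinearOrder J] [WellFoundedLT J]

/-- the type of `ζ` over the root in `p` is contained in that of `ζ'` in `q` -/
def Same (R : Finset (W ⊕ (J × L))) (p q : Rep J L) (ζ ζ' : W) : Prop :=
  (∀ n b, Atom.x ζ n b ∈ p → Atom.x ζ' n b ∈ q) ∧
    ∀ j β k, (Sum.inr (j, β) : W ⊕ (J × L)) ∈ R → Atom.e j β ζ k ∈ p → Atom.e j β ζ' k ∈ q

/-- the thinned out family -/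
structure Thin {Y : Type} (f : Y → Cd g) (a b : Y → W) (N : Y → ℕ)
    (S : Y → Finset (W ⊕ (J × L))) (R : Finset (W ⊕ (J × L))) (Y' : Set Y) : Prop where
  unc : ¬ Y'.Countable
  sub : ∀ y, ∀ x ∈ (f y).1, crd x ⊆ S y
  ma : ∀ y, Sum.inl (a y) ∈ S y
  mb : ∀ y, Sum.inl (b y) ∈ S y
  far : ∀ x ∉ R, {y ∈ Y' | x ∈ S y}.Countable
  eN : ∀ y ∈ Y', ∀ y' ∈ Y', N y = N y'
  root : ∀ y ∈ Y', ∀ y' ∈ Y', ∀ x ∈ (f y).1, crd x ⊆ R → x ∈ (f y').1
  sa : ∀ y ∈ Y', ∀ y' ∈ Y', Same R (f y).1 (f y').1 (a y) (a y')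
  sb : ∀ y ∈ Y', ∀ y' ∈ Y', Same R (f y).1 (f y').1 (b y) (b y')
  sz : ∀ y ∈ Y', ∀ y' ∈ Y', ∀ ζ, Sum.inl ζ ∈ S y →
    ∃ ζ', Sum.inl ζ' ∈ S y' ∧ Same R (f y).1 (f y').1 ζ ζ'

open Classical in
/-- the type of `ζ` over `R`, as an element of a countable set -/
noncomputable def ty (R : Finset (W ⊕ (J × L))) (p : Rep J L) (ζ : W) :
    Finset (ℕ × Bool) × (R → Finset ℕ) :=
  (p.biUnion fun a => match a with
    | .x α n b => if α = ζ then {(n, b)} else ∅
    | _ => ∅,
   fun z => p.biUnion fun a => match a with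
    | .e j β α k => if α = ζ ∧ z.1 = Sum.inr (j, β) then {k} else ∅
    | _ => ∅)

theorem same_of_ty {R : Finset (W ⊕ (J × L))} {p q : Rep J L} {ζ ζ' : W}
    (h : ty R p ζ = ty R q ζ') : Same R p q ζ ζ' := by
  classical
  obtain ⟨h1, h2⟩ := Prod.mk.inj h
  refine ⟨fun n b hx => ?_, fun j β k hR he => ?_⟩
  · have h3 : (n, b) ∈ (ty R p ζ).1 := by
      simp only [ty, Finset.mem_biUnion]
      exact ⟨_, hx, by simp⟩
    rw [h] at h3
    simp only [ty, Finset.mem_biUnion] at h3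
    obtain ⟨a, ha, h4⟩ := h3
    cases a with
    | x α n' b' =>
      by_cases hα : α = ζ'
      · subst hα
        simp only [if_true, Finset.mem_singleton, Prod.mk.injEq] at h4
        rw [h4.1, h4.2]
        exact ha
      · simp [hα] at h4
    | c => simp at h4
    | e => simp at h4
    | b => simp at h4
  · have h3 : k ∈ (ty R p ζ).2 ⟨Sum.inr (j, β), hR⟩ := by
      simp only [ty, Finset.mem_biUnion]
      exact ⟨_, he, by simp⟩
    rw [h] at h3
    simp only [ty, Finset.mem_biUnion] at h3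
    obtain ⟨a, ha, h4⟩ := h3
    cases a with
    | x => simp at h4
    | c => simp at h4
    | b => simp at h4
    | e j' β' α k' =>
      by_cases hα : α = ζ' ∧ (Sum.inr (j, β) : W ⊕ (J × L)) = Sum.inr (j', β')
      · obtain ⟨rfl, h5⟩ := hα
        obtain ⟨rfl, rfl⟩ := Prod.mk.inj (Sum.inr_injective h5)
        simp only [and_self, if_true, Finset.mem_singleton] at h4
        rw [h4]
        exact ha
      · change k ∈ (if α = ζ' ∧ (Sum.inr (j, β) : W ⊕ (J × L)) = Sum.inr (j', β') then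
          ({k'} : Finset ℕ) else ∅) at h4
        rw [if_neg hα] at h4
        exact absurd h4 (Finset.notMem_empty _)

theorem thin {Y : Type} (hY : ¬ Countable Y) (f : Y → Cd g) (a b : Y → W) (N : Y → ℕ) :
    ∃ (S : Y → Finset (W ⊕ (J × L))) (R : Finset (W ⊕ (J × L))) (Y' : Set Y),
      Thin f a b N S R Y' := by
  classical
  let S : Y → Finset (W ⊕ (J × L)) := fun y =>
    (crds_finite (f y).1).toFinset ∪ {Sum.inl (a y), Sum.inl (b y)}
  have hY0 : ¬ (Set.univ : Set Y).Countable := fun h => hY (Set.countable_univ_iff.1 h)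
  obtain ⟨R, Y1, _, hY1, hfar⟩ := exists_root S hY0
  obtain ⟨N0, hN0⟩ := exists_fiber' hY1 N
  obtain ⟨F, _, hF⟩ := exists_fiber hN0 (fun y => rpt R (f y).1)
    (countable_finsets (countable_root R)) (by
      intro y _ x hx
      exact (mem_rpt.1 (Finset.mem_coe.1 hx)).2)
  obtain ⟨ta, hta⟩ := exists_fiber' hF (fun y => ty R (f y).1 (a y))
  obtain ⟨tb, htb⟩ := exists_fiber' hta (fun y => ty R (f y).1 (b y))
  obtain ⟨ts, hts⟩ := exists_fiber' htb (fun y =>
    ((S y).biUnion fun x => match x with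
      | Sum.inl ζ => ({ty R (f y).1 ζ} : Finset _)
      | Sum.inr _ => ∅ : Finset (Finset (ℕ × Bool) × (R → Finset ℕ))))
  refine ⟨S, R, _, hts, fun y x hx => ?_, fun y => ?_, fun y => ?_, fun x hx => ?_, ?_, ?_, ?_, ?_,
    ?_⟩
  · intro z hz
    refine Finset.mem_coe.2 (Finset.mem_union_left _ ?_)
    rw [Set.Finite.mem_toFinset]
    exact ⟨x, hx, hz⟩
  · exact Finset.mem_union_right _ (by simp)
  · exact Finset.mem_union_right _ (by simp)
  · refine (hfar x hx).mono ?_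
    rintro y ⟨⟨⟨⟨⟨⟨hy, _⟩, _⟩, _⟩, _⟩, _⟩, h⟩
    exact ⟨hy, h⟩
  · rintro y ⟨⟨⟨⟨⟨_, h1⟩, _⟩, _⟩, _⟩, _⟩ y' ⟨⟨⟨⟨⟨_, h1'⟩, _⟩, _⟩, _⟩, _⟩
    rw [h1, h1']
  · rintro y ⟨⟨⟨⟨_, h1⟩, _⟩, _⟩, _⟩ y' ⟨⟨⟨⟨_, h1'⟩, _⟩, _⟩, _⟩ x hx hxR
    have h2 : x ∈ rpt R (f y).1 := mem_rpt.2 ⟨hx, hxR⟩
    have h1 : rpt R (f y).1 = F := h1
    have h1' : rpt R (f y').1 = F := h1'
    rw [h1, ← h1'] at h2
    exact (mem_rpt.1 h2).1
  · rintro y ⟨⟨⟨_, h1⟩, _⟩, _⟩ y' ⟨⟨⟨_, h1'⟩, _⟩, _⟩
    exact same_of_ty (h1.trans h1'.symm)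
  · rintro y ⟨⟨_, h1⟩, _⟩ y' ⟨⟨_, h1'⟩, _⟩
    exact same_of_ty (h1.trans h1'.symm)
  · rintro y ⟨_, h1⟩ y' ⟨_, h1'⟩ ζ hζ
    have h2 := h1.trans h1'.symm
    have h3 : ty R (f y).1 ζ ∈ ((S y).biUnion fun x => match x with
      | Sum.inl ζ => ({ty R (f y).1 ζ} : Finset _)
      | Sum.inr _ => ∅ : Finset (Finset (ℕ × Bool) × (R → Finset ℕ))) := by
      refine Finset.mem_biUnion.2 ⟨Sum.inl ζ, hζ, ?_⟩
      simp
    rw [h2] at h3
    obtain ⟨x, hx, h4⟩ := Finset.mem_biUnion.1 h3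
    cases x with
    | inl ζ' =>
      simp only [Finset.mem_singleton] at h4
      exact ⟨ζ', hx, same_of_ty h4⟩
    | inr z => simp at h4

section use

variable {Y : Type} {f : Y → Cd g} {a b : Y → W} {N : Y → ℕ}
  {S : Y → Finset (W ⊕ (J × L))} {R : Finset (W ⊕ (J × L))} {Y' : Set Y}

/-- members of the family far from a finite set of coordinates -/
theorem Thin.exists_far (h : Thin f a b N S R Y') {F : Set (W ⊕ (J × L))} (hF : F.Countable)
    {C : Set Y} (hC : C.Countable) : ∃ y ∈ Y', y ∉ C ∧ ∀ x ∈ S y, x ∈ F → x ∈ R := by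
  by_contra hcon
  push Not at hcon
  apply h.unc
  have h1 : (⋃ x ∈ F \ (R : Set _), {y ∈ Y' | x ∈ S y}).Countable :=
    (hF.mono Set.sdiff_subset).biUnion fun x hx => h.far x hx.2
  refine (hC.union h1).mono fun y hy => ?_
  by_cases hyC : y ∈ C
  · exact Or.inl hyC
  · right
    obtain ⟨x, h2, h3, h4⟩ := hcon y hy hyC
    simp only [Set.mem_iUnion]
    exact ⟨x, ⟨h3, h4⟩, hy, h2⟩

/-- amalgamating a member of the family with an extension of another one -/
theorem Thin.amalg (h : Thin f a b N S R Y') {y1 y3 : Y} (h1 : y1 ∈ Y') (h3 : y3 ∈ Y')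
    (r : Cd g) (hr : r ≤ f y1) (hfar : ∀ x ∈ S y3, x ∈ crds r.1 → x ∈ R) (H : W → W)
    (hH : ∀ ζ, Sum.inl ζ ∈ S y3 → Sum.inl ζ ∉ R → Same R (f y3).1 r.1 ζ (H ζ)) :
    ∃ u : Cd g, u ≤ r ∧ u ≤ f y3 ∧
      (∀ ζ, Sum.inl ζ ∈ S y3 → Sum.inl ζ ∉ R → ∀ n b, Atom.x (H ζ) n b ∈ r.1 →
        Atom.x ζ n b ∈ u.1) ∧
      (∀ α β n, Atom.c α β n ∈ u.1 → Atom.c α β n ∈ r.1 ∨ Atom.c α β n ∈ (f y3).1) := by
  classical
  have hroot : ∀ x ∈ (f y3).1, crd x ⊆ R → x ∈ r.1 := fun x hx hxR =>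
    hr (h.root y3 h3 y1 h1 x hx hxR)
  let Z : Finset W := ((S y3).biUnion fun x => match x with
    | Sum.inl ζ => {ζ}
    | Sum.inr _ => ∅)
  have hZ : ∀ ζ, ζ ∈ Z ↔ Sum.inl ζ ∈ S y3 := by
    intro ζ
    simp only [Z, Finset.mem_biUnion]
    constructor
    · rintro ⟨x, hx, h4⟩
      cases x with
      | inl ζ' =>
        simp only [Finset.mem_singleton] at h4
        rw [h4]; exact hx
      | inr z => simp at h4
    · intro h4
      exact ⟨_, h4, by simp⟩
  let hh : W → W := fun ζ => if (Sum.inl ζ : W ⊕ (J × L)) ∈ R then ζ else H ζ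
  have hh1 : ∀ ζ, (Sum.inl ζ : W ⊕ (J × L)) ∈ R → hh ζ = ζ := fun ζ hζ => if_pos hζ
  have hh2 : ∀ ζ, (Sum.inl ζ : W ⊕ (J × L)) ∉ R → hh ζ = H ζ := fun ζ hζ => if_neg hζ
  have hS : ∀ x ∈ (f y3).1, ∀ z ∈ crd x, z ∈ S y3 := fun x hx z hz => h.sub y3 x hx hz
  have hsame : ∀ ζ ∈ Z, (∀ n b, Atom.x ζ n b ∈ (f y3).1 → Atom.x (hh ζ) n b ∈ r.1) ∧
      ∀ j β k, (Sum.inr (j, β) : W ⊕ (J × L)) ∈ R → Atom.e j β ζ k ∈ (f y3).1 →
        Atom.e j β (hh ζ) k ∈ r.1 := by
    intro ζ hζ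
    by_cases hR : (Sum.inl ζ : W ⊕ (J × L)) ∈ R
    · rw [hh1 ζ hR]
      refine ⟨fun n b hx => hroot _ hx ?_, fun j β k hj he => hroot _ he ?_⟩
      · intro z hz
        have hz' : z = Sum.inl ζ := hz
        rw [hz']; exact hR
      · intro z hz
        have hz' : z = Sum.inl ζ ∨ z = Sum.inr (j, β) := hz
        rcases hz' with rfl | rfl
        · exact hR
        · exact hj
    · rw [hh2 ζ hR]
      exact hH ζ ((hZ ζ).1 hζ) hR
  obtain ⟨u, hu1, hu2, hu3, hu4⟩ := Pool.Agent.Helper919.DQ.amalg r (f y3) Z hh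
    (fun ζ n b hx => (hZ ζ).2 (hS _ hx _ rfl))
    (fun ζ hζ n b hx => hh1 ζ (hfar _ ((hZ ζ).1 hζ) ⟨_, hx, rfl⟩))
    (fun ζ n b hx => (hsame ζ ((hZ ζ).2 (hS _ hx _ rfl))).1 n b hx)
    (fun α β n m hn hm => by
      have hα : (Sum.inl α : W ⊕ (J × L)) ∈ R :=
        hfar _ (hS _ hn _ (Or.inl rfl)) ⟨_, hm, Or.inl rfl⟩
      have hβ : (Sum.inl β : W ⊕ (J × L)) ∈ R :=
        hfar _ (hS _ hn _ (Or.inr rfl)) ⟨_, hm, Or.inr rfl⟩
      refine r.2.1.2 α β n m (hroot _ hn ?_) hm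
      intro z hz
      have hz' : z = Sum.inl α ∨ z = Sum.inl β := hz
      rcases hz' with rfl | rfl
      · exact hα
      · exact hβ)
    (fun j β α k t he hb => by
      have hj : (Sum.inr (j, β) : W ⊕ (J × L)) ∈ R :=
        hfar _ (hS _ he _ (Or.inr rfl)) ⟨_, hb, rfl⟩
      have hα : α ∈ Z := (hZ α).2 (hS _ he _ (Or.inl rfl))
      exact ⟨hα, (hsame α hα).2 j β k hj he⟩)
    (fun j β α k t he hb => by
      have hj : (Sum.inr (j, β) : W ⊕ (J × L)) ∈ R :=
        hfar _ (hS _ hb _ rfl) ⟨_, he, Or.inr rfl⟩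
      refine hroot _ hb fun z hz => ?_
      have hz' : z = Sum.inr (j, β) := hz
      rw [hz']; exact hj)
  refine ⟨u, hu1, hu2, fun ζ hζ hR n b hx => hu3 ζ ((hZ ζ).2 hζ) n b ?_, hu4⟩
  rw [hh2 ζ hR]
  exact hx

/-- two far members of the family are compatible -/
theorem Thin.amalg0 (h : Thin f a b N S R Y') {y1 y3 : Y} (h1 : y1 ∈ Y') (h3 : y3 ∈ Y')
    (hfar : ∀ x ∈ S y3, x ∈ crds (f y1).1 → x ∈ R) :
    ∃ u : Cd g, u ≤ f y1 ∧ u ≤ f y3 ∧
      (∀ α β n, Atom.c α β n ∈ u.1 → Atom.c α β n ∈ (f y1).1 ∨ Atom.c α β n ∈ (f y3).1) := by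
  classical
  have hex : ∀ ζ, ∃ ζ', Sum.inl ζ ∈ S y3 → Same R (f y3).1 (f y1).1 ζ ζ' := by
    intro ζ
    by_cases hζ : Sum.inl ζ ∈ S y3
    · obtain ⟨ζ', _, h4⟩ := h.sz y3 h3 y1 h1 ζ hζ
      exact ⟨ζ', fun _ => h4⟩
    · exact ⟨ζ, fun h' => absurd h' hζ⟩
  choose H hH using hex
  obtain ⟨u, hu1, hu2, _, hu4⟩ := h.amalg h1 h3 (f y1) le_rfl hfar H fun ζ hζ _ => hH ζ hζ
  exact ⟨u, hu1, hu2, hu4⟩

end use

/-- the countable chain condition -/
theorem cond_ccc {Y : Type} (f : Y → Cd g) (hY : ¬ Countable Y) :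
    ∃ y y', y ≠ y' ∧ ∃ s, s ≤ f y ∧ s ≤ f y' := by
  classical
  by_cases hW : Nonempty W
  · obtain ⟨w⟩ := hW
    obtain ⟨S, R, Y', h⟩ := thin hY f (fun _ => w) (fun _ => w) fun _ => 0
    obtain ⟨y1, hy1, _, _⟩ := h.exists_far Set.countable_empty Set.countable_empty
    obtain ⟨y2, hy2, hne, hfar⟩ := h.exists_far (crds_finite (f y1).1).countable
      (Set.countable_singleton y1)
    obtain ⟨u, hu1, hu2, _⟩ := h.amalg0 hy1 hy2 hfar
    exact ⟨y1, y2, fun h' => hne h'.symm, u, hu1, hu2⟩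
  · exact absurd (by
      rw [← mk_ne_zero_iff, mk_toType, card_ord]
      exact (aleph_pos 1).ne') hW

theorem ccc : CCC (Cd g) := by
  intro A hA
  by_contra hcon
  obtain ⟨a, b, hne, s, hs1, hs2⟩ := cond_ccc (fun a : A => (a : Cd g)) hcon
  exact hne (Subtype.ext (hA a a.2 b b.2 ⟨s, hs1, hs2⟩))

/-- inside every set there is a countable set such that each member of the set is compatible
with one of them -/
theorem exists_antichain (D : Set (Cd g)) :
    ∃ A ⊆ D, A.Countable ∧ ∀ p ∈ D, ∃ a ∈ A, ∃ s, s ≤ a ∧ s ≤ p := by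
  obtain ⟨A, hA⟩ := zorn_subset {A : Set (Cd g) | A ⊆ D ∧ ∀ a ∈ A, ∀ b ∈ A,
      (∃ s, s ≤ a ∧ s ≤ b) → a = b}
    (by
      intro c hc hchain
      refine ⟨⋃₀ c, ⟨Set.sUnion_subset fun s hs => (hc hs).1, ?_⟩,
        fun s hs => Set.subset_sUnion_of_mem hs⟩
      rintro a ⟨s, hs, ha⟩ b ⟨t, ht, hb⟩ hab
      rcases hchain.total hs ht with h | h
      · exact (hc ht).2 a (h ha) b hb hab
      · exact (hc hs).2 a ha b (h hb) hab)
  refine ⟨A, hA.prop.1, ccc A hA.prop.2, ?_⟩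
  intro p hp
  by_contra hcon
  push Not at hcon
  have hpA : p ∉ A := fun hpA => hcon p hpA p le_rfl le_rfl
  have hmem : insert p A ∈ {A : Set (Cd g) | A ⊆ D ∧ ∀ a ∈ A, ∀ b ∈ A,
      (∃ s, s ≤ a ∧ s ≤ b) → a = b} := by
    refine ⟨Set.insert_subset hp hA.prop.1, ?_⟩
    rintro a (rfl | ha) b (rfl | hb) ⟨s, h1, h2⟩
    · rfl
    · exact absurd h1 (hcon b hb s h2)
    · exact absurd h2 (hcon a ha s h1)
    · exact hA.prop.2 a ha b hb ⟨s, h1, h2⟩
  exact hpA (hA.le_of_ge hmem (Set.subset_insert p A) (Set.mem_insert p A))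

end Pool.Agent.Helper919.DQ
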